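import Pool.Agent.HFinG.C2
import Pool.Agent.HFinG.C1

/-! MODULE AbsCurv (diff 2): the curvature at a flag `(x, y)`, `x` parallel to its covector.

As in `Pool/Agent/HX/L3.lean` (landed; read it: `curvQ_comm`, with `mm_anti`, `kk1`, `kk2`, `conn_kk1`, `kk1_symm`,
`spray_spec`, `fund_inj`, `fund_symm`).  Write `g = fund F x`, `l > 0`.
* `g x (mm v x) = l * Q x (mm v x) = 0`: `Q x (mm v x) = Q (mm v x) x = -Q x (mm v x)` (`hskew`); so `spray D F x = 0`.
* `g y (mm v x) = Q σ (mm v x) = 0`.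
* `2 g (conn y) u = g (mm u y) x + g (mm u x) y + g (mm y x) u` and
  `g (mm u y) x = l * Q x (mm u y) = l * Q (mm u y) x = -l * Q y (mm u x) = l * Q y (mm x u) = -l * Q (mm x y) u`, so
  `conn y = -(1/2)(z + l c)` with `z = mm x y`, `g c u = Q z u`.
* `kk1 y v = g z v = kk1 v y`, `kk2 y y = 2 g z z`.
* last term of `curvQ`: `g (act (mh x y) x) y = Q σ (act ..) = 0`.
* `curvQ = g (conn y)(conn y) - g z z = (1/4)(2 l Q z z + l² Q z c - 3 g z z)`.
* `l Q z c ≤ Q z z`: `g c c = Q z c ≥ l Q c c`; Cauchy-Schwarz `(Q z c)² ≤ Q z z * Q c c` (`hs`, `hp`: expand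
  `Q (z - t c) (z - t c) ≥ 0`); if `Q z c ≤ 0` it is clear (`Q z z ≥ 0`).
  With `g z z ≥ l Q z z`: `curvQ ≤ (1/4)(2 l + l - 3 l) Q z z = 0`.
-/

namespace S3

open HFinG
open scoped ContDiff

variable {V H : Type*} [NormedAddCommGroup V] [NormedSpace ℝ V] [FiniteDimensional ℝ V]
  [NormedAddCommGroup H] [NormedSpace ℝ H]

omit [FiniteDimensional ℝ V] in
theorem AbsCurv_nonneg (Q : V →L[ℝ] V →L[ℝ] ℝ) (hp : ∀ x, x ≠ 0 → 0 < Q x x) (v : V) :
    0 ≤ Q v v := by
  by_cases h : v = 0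
  · rw [h]; simp
  · exact (hp v h).le

omit [FiniteDimensional ℝ V] in
theorem AbsCurv_cs (Q : V →L[ℝ] V →L[ℝ] ℝ) (hs : ∀ x y, Q x y = Q y x)
    (hp : ∀ x, x ≠ 0 → 0 < Q x x) (z c : V) : Q z c ^ 2 ≤ Q z z * Q c c := by
  by_cases hc : c = 0
  · rw [hc]; simp
  have hd := hp c hc
  have h1 := AbsCurv_nonneg Q hp (Q c c • z - Q z c • c)
  have h2 : Q (Q c c • z - Q z c • c) (Q c c • z - Q z c • c)
      = Q c c * (Q z z * Q c c - Q z c ^ 2) := by
    simp only [map_sub, map_smul, ContinuousLinearMap.sub_apply, ContinuousLinearMap.smul_apply,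
      smul_eq_mul]
    rw [hs c z]
    ring
  rw [h2] at h1
  have h3 := nonneg_of_mul_nonneg_right h1 hd
  linarith

theorem curv_le {D : RedData V H} {F : V → ℝ} (hF : IsMinkowski F) (Q : V →L[ℝ] V →L[ℝ] ℝ)
    (hs : ∀ x y, Q x y = Q y x) (hp : ∀ x, x ≠ 0 → 0 < Q x x)
    (hskew : ∀ x y z, Q (D.mm x y) z = -Q y (D.mm x z)) {x y c σ : V} {l : ℝ} (hx : x ≠ 0)
    (hl : 0 < l) (h1 : ∀ v, fund F x x v = l * Q x v) (h2 : ∀ v, fund F x y v = Q σ v)
    (h3 : ∀ v, Q σ (D.mm v x) = 0) (h4 : ∀ A, Q σ (D.act A x) = 0)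
    (hb : l * Q (D.mm x y) (D.mm x y) ≤ fund F x (D.mm x y) (D.mm x y))
    (hc : ∀ v, fund F x c v = Q (D.mm x y) v) (hcb : l * Q c c ≤ fund F x c c) :
    curvQ D F x y ≤ 0 := by
  have q1 : ∀ v, Q x (D.mm v x) = 0 := by
    intro v
    have h5 := hskew v x x
    rw [hs (D.mm v x) x] at h5
    linarith
  have hsp : spray D F x = 0 := by
    apply fund_inj hF hx
    intro v
    rw [spray_spec D hF hx, h1, q1, mul_zero, map_zero]
    rfl
  have h3' : ∀ v, fund F x y (D.mm x v) = 0 := by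
    intro v
    rw [mm_anti D x v, map_neg, h2, h3, neg_zero]
  have hk : ∀ v, kk1 D F x y v = fund F x (D.mm x y) v := by
    intro v
    unfold kk1
    rw [hsp, map_zero, h3']
    ring
  have hk' : ∀ v, kk1 D F x v y = fund F x (D.mm x y) v := by
    intro v
    rw [kk1_symm D hF hx, hk]
  have hcn : conn D F x y = -((1 / 2 : ℝ) • (l • c + D.mm x y)) := by
    apply fund_inj hF hx
    intro u
    have h5 := conn_kk1 D hF hx y u
    have h6 : Q x (D.mm u y) = -Q (D.mm x y) u := by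
      rw [hs x (D.mm u y), hskew u y x, mm_anti D u x, map_neg, neg_neg, hskew x y u, neg_neg]
    rw [h1, hk, h6] at h5
    rw [map_neg, map_smul, map_add, map_smul]
    simp only [ContinuousLinearMap.neg_apply, ContinuousLinearMap.smul_apply,
      ContinuousLinearMap.add_apply, smul_eq_mul]
    rw [hc]
    linarith
  have hzc : fund F x (D.mm x y) c = Q (D.mm x y) (D.mm x y) := by
    rw [fund_symm hF hx, hc]
  have hcc : fund F x c c = Q (D.mm x y) c := hc c
  have e : curvQ D F x y = (1 / 4) * (l ^ 2 * Q (D.mm x y) c + 2 * l * Q (D.mm x y) (D.mm x y)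
      - 3 * fund F x (D.mm x y) (D.mm x y)) := by
    unfold curvQ kk2
    rw [hsp, map_zero, hk, hk', hcn, fund_symm hF hx (D.act (D.mh x y) x) y, h2, h4]
    simp only [map_neg, map_smul, map_add, ContinuousLinearMap.neg_apply,
      ContinuousLinearMap.smul_apply, ContinuousLinearMap.add_apply, smul_eq_mul]
    rw [hzc, hcc, hc]
    ring
  rw [e]
  rw [hcc] at hcb
  have a0 := AbsCurv_nonneg Q hp (D.mm x y)
  have d0 := AbsCurv_nonneg Q hp c
  have cs := AbsCurv_cs Q hs hp (D.mm x y) c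
  generalize Q (D.mm x y) (D.mm x y) = a at *
  generalize Q (D.mm x y) c = b at *
  generalize Q c c = d at *
  generalize fund F x (D.mm x y) (D.mm x y) = g at *
  have key : l * b ≤ a := by
    rcases le_or_gt b 0 with hb0 | hb0
    · have := mul_nonpos_of_nonneg_of_nonpos hl.le hb0
      linarith
    · have h7 : l * b ^ 2 ≤ a * b := by
        calc l * b ^ 2 ≤ l * (a * d) := mul_le_mul_of_nonneg_left cs hl.le
          _ = a * (l * d) := by ring
          _ ≤ a * b := mul_le_mul_of_nonneg_left hcb a0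
      have h8 : b * (l * b) ≤ b * a := by
        calc b * (l * b) = l * b ^ 2 := by ring
          _ ≤ a * b := h7
          _ = b * a := by ring
      exact le_of_mul_le_mul_left h8 hb0
  have h9 : l * (l * b) ≤ l * a := mul_le_mul_of_nonneg_left key hl.le
  have h10 : l ^ 2 * b = l * (l * b) := by ring
  rw [h10]
  nlinarith

end S3
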