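import Pool.Agent.S3.AbsMin
import Pool.Agent.S3.AbsCurv
import Pool.Agent.HX.L1
import Pool.Agent.HX.L2
import Pool.Agent.HX.L3

/-! MODULE AbsMain (diff 2): the general nonexistence lemma.

`x, l` from `min_point`; `σ` from `hcent`.  `y` with `fund F x y v = Q σ v` for all `v` (`exists_repr` in HFinG, see how
`Pool/Agent/HX/MD.lean` uses it), `y ≠ 0` (`Q σ σ > 0`).
* `T y = -y`: `fund F x (T y) (T v) = fund F (T x) (T y) (T v) = fund F x y v = Q σ v = Q (T σ) (T v) = -Q σ (T v)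
  = -fund F x y (T v)` (`fund_equiv`), `T` onto, `fund_inj`.
* `z = mm x y`, `T z = z` (`hmm`); `c` with `fund F x c v = Q z v`; `T c = c` in the same way.
* `curv_le` (with `hb`, `hcb` from `min_point`): `curvQ D F x y ≤ 0`.
* `x, y` are linearly independent: `s x + t y = 0`, apply `T`: `s x - t y = 0`, so `s x = 0`, `t y = 0`.
* `flagK_pos_iff`: contradiction to `PosFlag`.
-/

namespace S3

open HFinG HX
open scoped ContDiff

variable {V H : Type*} [NormedAddCommGroup V] [NormedSpace ℝ V] [FiniteDimensional ℝ V]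
  [NormedAddCommGroup H] [NormedSpace ℝ H]

theorem no_pos {D : RedData V H} {F : V → ℝ} (hF : IsMinkowski F) (Q : V →L[ℝ] V →L[ℝ] ℝ)
    (hs : ∀ x y, Q x y = Q y x) (hp : ∀ x, x ≠ 0 → 0 < Q x x)
    (hskew : ∀ x y z, Q (D.mm x y) z = -Q y (D.mm x z)) (T : V ≃L[ℝ] V)
    (hT2 : ∀ x, T (T x) = x) (hFT : ∀ x, F (T x) = F x) (hQT : ∀ x y, Q (T x) (T y) = Q x y)
    (hne : ∃ x, x ≠ 0 ∧ T x = x)
    (hmm : ∀ x y, T x = x → T y = -y → T (D.mm x y) = D.mm x y)
    (hcent : ∀ x, x ≠ 0 → T x = x → ∃ σ, σ ≠ 0 ∧ T σ = -σ ∧ (∀ v, Q σ (D.mm v x) = 0) ∧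
      ∀ A, Q σ (D.act A x) = 0) : ¬ PosFlag D F := by
  intro hpos
  obtain ⟨x, l, hx, hTx, hl, h1, hmin⟩ := min_point hF Q hs hp T hT2 hFT hQT hne
  obtain ⟨σ, hσ, hTσ, h3, h4⟩ := hcent x hx hTx
  have hsurj : ∀ v, ∃ w, T w = v := fun v => ⟨T v, hT2 v⟩
  obtain ⟨y, hy⟩ := exists_repr hF hx (Q σ).toLinearMap
  have hy' : ∀ v, fund F x y v = Q σ v := fun v => hy v
  have hy0 : y ≠ 0 := by
    rintro rfl
    have h := hy' σ
    rw [map_zero] at h
    exact absurd h.symm (hp σ hσ).ne'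
  have hTy : T y = -y := by
    refine fund_inj hF hx fun v => ?_
    obtain ⟨w, rfl⟩ := hsurj v
    have e1 := fund_equiv hF T hFT hx y w
    rw [hTx] at e1
    have e2 : Q σ w = -Q σ (T w) := by
      rw [← hQT σ w, hTσ, map_neg]
      rfl
    have e3 : fund F x (-y) (T w) = -fund F x y (T w) := by
      rw [map_neg]
      rfl
    rw [e1, hy', e2, e3, hy']
  have hTz : T (D.mm x y) = D.mm x y := hmm x y hTx hTy
  obtain ⟨c, hc⟩ := exists_repr hF hx (Q (D.mm x y)).toLinearMap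
  have hc' : ∀ v, fund F x c v = Q (D.mm x y) v := fun v => hc v
  have hTc : T c = c := by
    refine fund_inj hF hx fun v => ?_
    obtain ⟨w, rfl⟩ := hsurj v
    have e1 := fund_equiv hF T hFT hx c w
    rw [hTx] at e1
    rw [e1, hc', hc', ← hQT (D.mm x y) w, hTz]
  have hle := curv_le hF Q hs hp hskew hx hl h1 hy' h3 h4 (hmin _ hTz) hc' (hmin c hTc)
  have hli : LinearIndependent ℝ ![x, y] := by
    rw [LinearIndependent.pair_iff]
    intro s t hst
    have e1 : T (s • x + t • y) = 0 := by rw [hst, map_zero]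
    rw [map_add, map_smul, map_smul, hTx, hTy, smul_neg] at e1
    have e2 : (2 * s) • x = 0 := by
      have : (2 * s) • x = (s • x + t • y) + (s • x + -(t • y)) := by
        rw [mul_smul, two_smul]
        abel
      rw [this, hst, e1, add_zero]
    have e3 : s = 0 := by
      rcases smul_eq_zero.1 e2 with h | h
      · linarith
      · exact absurd h hx
    refine ⟨e3, ?_⟩
    rw [e3, zero_smul, zero_add] at hst
    rcases smul_eq_zero.1 hst with h | h
    · exact h
    · exact absurd h hy0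
  have := (flagK_pos_iff D hF hli).1 (hpos x y hli)
  linarith

end S3
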