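import Pool.Agent.HX.L2

/-! MODULE AbsMin (diff 2-3): minimum of `F` on the unit sphere of the fixed space of `T`.

`E = F²/2`, `V' = {v | T v = v}` (closed subspace, `≠ 0` by `hne`).  `S = {v ∈ V' | Q v v = 1}` is compact (`Q` is
positive definite on a finite-dimensional space: `Q v v ≥ c ‖v‖²`, or: `S` closed and bounded), nonempty (scale the
vector of `hne`); `F` is continuous (`hF.smooth` away from `0`), so it has a minimum on `S` at `x`.
Put `l = 2 E x = F x ^ 2 > 0`.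
* For all `y ∈ V'`: `E y ≥ E x * Q y y` (for `y ≠ 0` scale `y` by `(Q y y)^(-1/2)`, `hF.smul`; `y = 0`: `F 0 = 0`).
* For `v ∈ V'` the function `φ t = E (x + t v) - E x * Q (x + t v) (x + t v)` has a minimum `0` at `t = 0`; it is
  `C²` near `0` (`x + t v ≠ 0`).  `φ' 0 = 0`: `DE(x) v = 2 E x * Q x v = l * Q x v`; `φ'' 0 ≥ 0`:
  `fund F x v v ≥ 2 E x * Q v v`.  (Second derivative test: if `φ'' 0 < 0` and `φ' 0 = 0` then `0` is a strict local
  maximum; e.g. `deriv` of `φ` negative on the right.)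
* `fund F x x v = DE(x) v` (`fund_self`, HFinG/A2).
* If `T v = -v`: `DE(x) v = DE(T x)(T v) = -DE(x) v` (`denergy_equiv`), so it is `0`; `Q x v = Q (T x) (T v) = -Q x v`, `0`.
* General `v = (1/2)(v + T v) + (1/2)(v - T v)`.
-/

namespace S3

open HFinG HX
open scoped ContDiff

variable {V : Type*} [NormedAddCommGroup V] [NormedSpace ℝ V] [FiniteDimensional ℝ V]

omit [FiniteDimensional ℝ V] in
theorem AbsMin_line (x v : V) (t : ℝ) : HasDerivAt (fun t : ℝ => x + t • v) v t := by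
  have h1 := (hasDerivAt_id t).smul_const v
  rw [one_smul] at h1
  exact h1.const_add x

omit [FiniteDimensional ℝ V] in
theorem AbsMin_sq (Q : V →L[ℝ] V →L[ℝ] ℝ) (hs : ∀ x y, Q x y = Q y x) (x v : V) (t : ℝ) :
    HasDerivAt (fun t : ℝ => Q (x + t • v) (x + t • v)) (2 * Q (x + t • v) v) t := by
  have h1 : HasDerivAt (fun t : ℝ => Q (x + t • v)) (Q v) t :=
    Q.hasFDerivAt.comp_hasDerivAt t (AbsMin_line x v t)
  have h2 := h1.clm_apply (AbsMin_line x v t)
  have h3 : Q v (x + t • v) + Q (x + t • v) v = 2 * Q (x + t • v) v := by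
    rw [hs v (x + t • v)]
    ring
  rw [h3] at h2
  exact h2

/-- the function along a line -/
theorem AbsMin_test {F : V → ℝ} (hF : IsMinkowski F) (Q : V →L[ℝ] V →L[ℝ] ℝ)
    (hs : ∀ x y, Q x y = Q y x) {x v : V} {l : ℝ} (hx : x ≠ 0)
    (hmin : ∀ t : ℝ, l * Q (x + t • v) (x + t • v) ≤ F (x + t • v) ^ 2)
    (heq : F x ^ 2 = l * Q x x) :
    fund F x x v = l * Q x v ∧ l * Q v v ≤ fund F x v v := by
  set ψ : ℝ → ℝ := fun t => F (x + t • v) ^ 2 / 2 - l / 2 * Q (x + t • v) (x + t • v) with hψ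
  have hpos : ∀ t, 0 ≤ ψ t := by
    intro t
    have := hmin t
    simp only [hψ]
    linarith
  have h0 : ψ 0 = 0 := by
    simp only [hψ, zero_smul, add_zero]
    rw [heq]
    ring
  have hne : ∀ᶠ t in nhds (0 : ℝ), x + t • v ≠ 0 := by
    have hc : ContinuousAt (fun t : ℝ => x + t • v) 0 := (AbsMin_line x v 0).continuousAt
    have h1 : (fun t : ℝ => x + t • v) 0 ≠ 0 := by
      simp only [zero_smul, add_zero]
      exact hx
    exact hc.eventually_ne h1
  have hd : ∀ t : ℝ, x + t • v ≠ 0 → HasDerivAt ψ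
      (fderiv ℝ (fun z => F z ^ 2 / 2) (x + t • v) v - l * Q (x + t • v) v) t := by
    intro t ht
    have h1 : HasDerivAt (fun t : ℝ => F (x + t • v) ^ 2 / 2)
        (fderiv ℝ (fun z => F z ^ 2 / 2) (x + t • v) v) t := by
      have h10 : HasFDerivAt (fun z => F z ^ 2 / 2)
          (fderiv ℝ (fun z => F z ^ 2 / 2) (x + t • v)) (x + t • v) :=
        (A1_energy_diff hF ht).hasFDerivAt
      exact h10.comp_hasDerivAt t (AbsMin_line x v t)
    have h2 := (AbsMin_sq Q hs x v t).const_mul (l / 2)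
    have h3 := h1.sub h2
    have h4 : l / 2 * (2 * Q (x + t • v) v) = l * Q (x + t • v) v := by ring
    rw [h4] at h3
    exact h3
  have hx0 : x + (0 : ℝ) • v = x := by rw [zero_smul, add_zero]
  have hd0 := hd 0 (by rw [hx0]; exact hx)
  rw [hx0] at hd0
  have hlm : IsLocalMin ψ 0 := by
    filter_upwards with t
    rw [h0]
    exact hpos t
  have hfirst : fderiv ℝ (fun z => F z ^ 2 / 2) x v - l * Q x v = 0 :=
    hlm.hasDerivAt_eq_zero hd0
  refine ⟨by rw [fund_self hF hx]; linarith, ?_⟩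
  by_contra hlt
  rw [not_le] at hlt
  have hev : deriv ψ =ᶠ[nhds 0] fun t =>
      fderiv ℝ (fun z => F z ^ 2 / 2) (x + t • v) v - l * Q (x + t • v) v := by
    filter_upwards [hne] with t ht
    exact (hd t ht).deriv
  have hdd : HasDerivAt (fun t : ℝ =>
      fderiv ℝ (fun z => F z ^ 2 / 2) (x + t • v) v - l * Q (x + t • v) v)
      (fund F x v v - l * Q v v) 0 := by
    have h1 : HasDerivAt (fun t : ℝ => fderiv ℝ (fun z => F z ^ 2 / 2) (x + t • v) v)
        (((ContinuousLinearMap.apply ℝ ℝ v).comp (fund F x)) v) 0 := by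
      have h2 : HasFDerivAt (fun z => fderiv ℝ (fun z => F z ^ 2 / 2) z v)
          ((ContinuousLinearMap.apply ℝ ℝ v).comp (fund F x)) (x + (0 : ℝ) • v) := by
        rw [hx0]
        exact A1_fund_eq hF hx v
      exact h2.comp_hasDerivAt 0 (AbsMin_line x v 0)
    have h3 : HasDerivAt (fun t : ℝ => l * Q (x + t • v) v) (l * Q v v) 0 := by
      have h4 : HasDerivAt (fun t : ℝ => Q (x + t • v)) (Q v) 0 :=
        Q.hasFDerivAt.comp_hasDerivAt 0 (AbsMin_line x v 0)
      have h5 := h4.clm_apply (hasDerivAt_const (0 : ℝ) v)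
      have h6 : Q v v + Q (x + (0 : ℝ) • v) 0 = Q v v := by rw [map_zero, add_zero]
      rw [h6] at h5
      exact h5.const_mul l
    exact h1.sub h3
  have hdd' : deriv (deriv ψ) 0 = fund F x v v - l * Q v v := by
    rw [hev.deriv_eq]
    exact hdd.deriv
  have hmax : IsLocalMax ψ 0 := by
    apply isLocalMax_of_deriv_deriv_neg
    · rw [hdd']; linarith
    · rw [hd0.deriv]; exact hfirst
    · exact hd0.continuousAt
  have hz : ψ =ᶠ[nhds 0] fun _ => (0 : ℝ) := by
    filter_upwards [hmax] with t ht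
    have := hpos t
    rw [h0] at ht
    linarith
  have hz1 : deriv ψ =ᶠ[nhds 0] fun _ => (0 : ℝ) := by
    filter_upwards [hz.eventually_nhds] with t ht
    have h7 : ψ =ᶠ[nhds t] fun _ => (0 : ℝ) := ht
    rw [h7.deriv_eq, deriv_const]
  have hz2 : deriv (deriv ψ) 0 = 0 := by
    rw [hz1.deriv_eq, deriv_const]
  rw [hdd'] at hz2
  linarith

theorem min_point {F : V → ℝ} (hF : IsMinkowski F) (Q : V →L[ℝ] V →L[ℝ] ℝ)
    (hs : ∀ x y, Q x y = Q y x) (hp : ∀ x, x ≠ 0 → 0 < Q x x) (T : V ≃L[ℝ] V)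
    (hT2 : ∀ x, T (T x) = x) (hFT : ∀ x, F (T x) = F x) (hQT : ∀ x y, Q (T x) (T y) = Q x y)
    (hne : ∃ x, x ≠ 0 ∧ T x = x) :
    ∃ (x : V) (l : ℝ), x ≠ 0 ∧ T x = x ∧ 0 < l ∧ (∀ v, fund F x x v = l * Q x v) ∧
      ∀ v, T v = v → l * Q v v ≤ fund F x v v := by
  have := FiniteDimensional.proper ℝ V
  let K : Set V := {v | T v = v} ∩ Metric.sphere (0 : V) 1
  have hK : IsCompact K := by
    apply (isCompact_sphere (0 : V) 1).inter_left
    exact isClosed_eq T.continuous continuous_id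
  have hK0 : ∀ v ∈ K, v ≠ 0 := by
    intro v hv h
    have h1 := hv.2
    rw [mem_sphere_zero_iff_norm, h, norm_zero] at h1
    exact zero_ne_one h1
  have hKne : K.Nonempty := by
    obtain ⟨x, hx, hTx⟩ := hne
    refine ⟨‖x‖⁻¹ • x, ?_, ?_⟩
    · change T (‖x‖⁻¹ • x) = ‖x‖⁻¹ • x
      rw [map_smul, hTx]
    · rw [mem_sphere_zero_iff_norm, norm_smul, norm_inv, norm_norm]
      exact inv_mul_cancel₀ (norm_ne_zero_iff.2 hx)
  have hQc : Continuous fun v => Q v v := by
    exact Q.continuous.clm_apply continuous_id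
  have hcont : ContinuousOn (fun v => F v ^ 2 / Q v v) K := by
    apply ContinuousOn.div
    · apply ContinuousOn.pow
      exact hF.smooth.continuousOn.mono fun v hv => hK0 v hv
    · exact hQc.continuousOn
    · intro v hv
      exact (hp v (hK0 v hv)).ne'
  obtain ⟨x, hxK, hmin⟩ := hK.exists_isMinOn hKne hcont
  have hx := hK0 x hxK
  have hTx : T x = x := hxK.1
  have hQx := hp x hx
  have hFx := hF.pos x hx
  obtain ⟨l, hl⟩ : ∃ l, l = F x ^ 2 / Q x x := ⟨_, rfl⟩
  have hlpos : 0 < l := by rw [hl]; positivity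
  have heq : F x ^ 2 = l * Q x x := by
    rw [hl, div_mul_cancel₀ _ hQx.ne']
  have hall : ∀ y, T y = y → l * Q y y ≤ F y ^ 2 := by
    intro y hy
    by_cases h : y = 0
    · rw [h, hF.zero]; simp
    have hn : 0 < ‖y‖ := norm_pos_iff.2 h
    have hu : ‖y‖⁻¹ • y ∈ K := by
      refine ⟨?_, ?_⟩
      · change T (‖y‖⁻¹ • y) = ‖y‖⁻¹ • y
        rw [map_smul, hy]
      · rw [mem_sphere_zero_iff_norm, norm_smul, norm_inv, norm_norm]
        exact inv_mul_cancel₀ hn.ne'
    have h1 : F x ^ 2 / Q x x ≤ F (‖y‖⁻¹ • y) ^ 2 / Q (‖y‖⁻¹ • y) (‖y‖⁻¹ • y) := hmin hu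
    rw [← hl, le_div_iff₀ (hp _ (hK0 _ hu)), hF.smul _ _ (by positivity)] at h1
    simp only [map_smul, smul_apply, smul_eq_mul] at h1
    have h2 : l * (‖y‖⁻¹ * (‖y‖⁻¹ * Q y y)) = (‖y‖⁻¹) ^ 2 * (l * Q y y) := by ring
    have h3 : (‖y‖⁻¹ * F y) ^ 2 = (‖y‖⁻¹) ^ 2 * F y ^ 2 := by ring
    rw [h2, h3] at h1
    exact le_of_mul_le_mul_left h1 (by positivity)
  have hfix : ∀ v, T v = v → fund F x x v = l * Q x v ∧ l * Q v v ≤ fund F x v v := by
    intro v hv
    apply AbsMin_test hF Q hs hx _ heq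
    intro t
    apply hall
    rw [map_add, map_smul, hTx, hv]
  refine ⟨x, l, hx, hTx, hlpos, ?_, fun v hv => (hfix v hv).2⟩
  intro v
  have hanti : ∀ w, T w = -w → fund F x x w = 0 ∧ Q x w = 0 := by
    intro w hw
    have h1 := denergy_equiv hF T hFT hx w
    rw [hTx, hw, map_neg] at h1
    have h2 := hQT x w
    rw [hTx, hw, map_neg] at h2
    refine ⟨?_, by linarith⟩
    rw [fund_self hF hx]
    linarith
  have h1 := (hfix (v + T v) (by rw [map_add, hT2, add_comm])).1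
  obtain ⟨h2, h3⟩ := hanti (v - T v) (by rw [map_sub, hT2, neg_sub])
  rw [map_add, map_add] at h1
  rw [map_sub] at h2 h3
  have h4 : Q x (T v) = Q x v := by linarith
  rw [h4] at h1
  linarith

end S3
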