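import Pool.Agent.HG.Defs
import Mathlib.Analysis.Quaternion

/-!
# `Sp(3)/{diag(z, z, q)}`: the model

`𝔤 = 𝔰𝔭(3)` = skew-Hermitian quaternionic `3 × 3` matrices, `𝔥 = {diag(ti, ti, q)}`, `𝔪 = 𝔥^⊥`:
`x = (s, (a₂, a₃), (c₂, c₃); b; v₁; v₂)` is the matrix
`!![s i + a₂ j + a₃ k, b, v₁; -b̄, -s i + c₂ j + c₃ k, v₂; -v̄₁, -v̄₂, 0]`.
-/

namespace S3

open HFinG HG
open scoped Matrix ContDiff Matrix.Norms.Operator Quaternion

/-- `3 × 3` quaternionic matrices -/
abbrev M3 := Matrix (Fin 3) (Fin 3) ℍ[ℝ]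

/-- coordinates of `𝔪` -/
abbrev Vs := (ℝ × (ℝ × ℝ) × (ℝ × ℝ)) × ℍ[ℝ] × ℍ[ℝ] × ℍ[ℝ]

/-- coordinates `(t, q₁, q₂, q₃)` of `𝔥` -/
abbrev Hs := ℝ × ℝ × ℝ × ℝ

/-- the imaginary quaternion `a i + b j + c k` -/
def imq (a b c : ℝ) : ℍ[ℝ] := ⟨0, a, b, c⟩

@[simp] lemma imq_re (a b c : ℝ) : (imq a b c).re = 0 := rfl
@[simp] lemma imq_imI (a b c : ℝ) : (imq a b c).imI = a := rfl
@[simp] lemma imq_imJ (a b c : ℝ) : (imq a b c).imJ = b := rfl
@[simp] lemma imq_imK (a b c : ℝ) : (imq a b c).imK = c := rfl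

lemma imq_add (a b c a' b' c' : ℝ) :
    imq (a + a') (b + b') (c + c') = imq a b c + imq a' b' c' := by
  ext <;> simp

lemma imq_smul (t a b c : ℝ) : imq (t * a) (t * b) (t * c) = t • imq a b c := by
  ext <;> simp

lemma star_imq (a b c : ℝ) : star (imq a b c) = -imq a b c := by
  ext <;> simp

/-- the first diagonal entry -/
def qa (x : Vs) : ℍ[ℝ] := imq x.1.1 x.1.2.1.1 x.1.2.1.2

/-- the second diagonal entry -/
noncomputable def qc (x : Vs) : ℍ[ℝ] := imq (-x.1.1) x.1.2.2.1 x.1.2.2.2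

lemma qa_add (x y : Vs) : qa (x + y) = qa x + qa y := imq_add _ _ _ _ _ _

lemma qc_add (x y : Vs) : qc (x + y) = qc x + qc y := by
  ext <;> simp [qc]
  ring

lemma qa_smul (c : ℝ) (x : Vs) : qa (c • x) = c • qa x := imq_smul _ _ _ _

lemma qc_smul (c : ℝ) (x : Vs) : qc (c • x) = c • qc x := by
  ext <;> simp [qc]

/-- The matrix of `x ∈ 𝔪`. -/
noncomputable def iotaF (x : Vs) : M3 :=
  !![qa x, x.2.1, x.2.2.1;
     -star x.2.1, qc x, x.2.2.2;
     -star x.2.2.1, -star x.2.2.2, 0]

/-- The matrix of `A ∈ 𝔥`. -/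
noncomputable def hatF (A : Hs) : M3 :=
  !![imq A.1 0 0, 0, 0;
     0, imq A.1 0 0, 0;
     0, 0, imq A.2.1 A.2.2.1 A.2.2.2]

/-- The `𝔪`-coordinates of a matrix. -/
noncomputable def prmF (S : M3) : Vs :=
  ((((S 0 0).imI - (S 1 1).imI) / 2, ((S 0 0).imJ, (S 0 0).imK), ((S 1 1).imJ, (S 1 1).imK)),
    S 0 1, S 0 2, S 1 2)

/-- The `𝔥`-coordinates of a matrix. -/
noncomputable def prhF (S : M3) : Hs :=
  (((S 0 0).imI + (S 1 1).imI) / 2, (S 2 2).imI, (S 2 2).imJ, (S 2 2).imK)

/-- `iota` as a continuous linear map -/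
noncomputable def iotaS : Vs →L[ℝ] M3 :=
  LinearMap.toContinuousLinearMap
    { toFun := iotaF
      map_add' := by
        intro x y
        refine Matrix.ext fun i j => ?_
        fin_cases i <;> fin_cases j
        · exact qa_add x y
        · rfl
        · rfl
        · change -star (x.2.1 + y.2.1) = -star x.2.1 + -star y.2.1
          rw [star_add, neg_add]
        · exact qc_add x y
        · rfl
        · change -star (x.2.2.1 + y.2.2.1) = -star x.2.2.1 + -star y.2.2.1
          rw [star_add, neg_add]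
        · change -star (x.2.2.2 + y.2.2.2) = -star x.2.2.2 + -star y.2.2.2
          rw [star_add, neg_add]
        · change (0 : ℍ[ℝ]) = 0 + 0
          rw [add_zero]
      map_smul' := by
        intro c x
        refine Matrix.ext fun i j => ?_
        fin_cases i <;> fin_cases j
        · exact qa_smul c x
        · rfl
        · rfl
        · change -star (c • x.2.1) = c • (-star x.2.1)
          rw [Quaternion.star_smul, smul_neg]
        · exact qc_smul c x
        · rfl
        · change -star (c • x.2.2.1) = c • (-star x.2.2.1)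
          rw [Quaternion.star_smul, smul_neg]
        · change -star (c • x.2.2.2) = c • (-star x.2.2.2)
          rw [Quaternion.star_smul, smul_neg]
        · change (0 : ℍ[ℝ]) = c • (0 : ℍ[ℝ])
          rw [smul_zero] }

lemma iotaS_apply (x : Vs) : iotaS x = iotaF x := rfl

/-- `hat` as a continuous linear map -/
noncomputable def hatS : Hs →L[ℝ] M3 :=
  LinearMap.toContinuousLinearMap
    { toFun := hatF
      map_add' := by
        intro x y
        refine Matrix.ext fun i j => ?_
        fin_cases i <;> fin_cases j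
        · change imq (x.1 + y.1) 0 0 = imq x.1 0 0 + imq y.1 0 0
          rw [← imq_add, add_zero]
        · change (0 : ℍ[ℝ]) = 0 + 0
          rw [add_zero]
        · change (0 : ℍ[ℝ]) = 0 + 0
          rw [add_zero]
        · change (0 : ℍ[ℝ]) = 0 + 0
          rw [add_zero]
        · change imq (x.1 + y.1) 0 0 = imq x.1 0 0 + imq y.1 0 0
          rw [← imq_add, add_zero]
        · change (0 : ℍ[ℝ]) = 0 + 0
          rw [add_zero]
        · change (0 : ℍ[ℝ]) = 0 + 0
          rw [add_zero]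
        · change (0 : ℍ[ℝ]) = 0 + 0
          rw [add_zero]
        · exact imq_add _ _ _ _ _ _
      map_smul' := by
        intro c x
        refine Matrix.ext fun i j => ?_
        fin_cases i <;> fin_cases j
        · change imq (c * x.1) 0 0 = c • imq x.1 0 0
          rw [← imq_smul, mul_zero]
        · change (0 : ℍ[ℝ]) = c • (0 : ℍ[ℝ])
          rw [smul_zero]
        · change (0 : ℍ[ℝ]) = c • (0 : ℍ[ℝ])
          rw [smul_zero]
        · change (0 : ℍ[ℝ]) = c • (0 : ℍ[ℝ])
          rw [smul_zero]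
        · change imq (c * x.1) 0 0 = c • imq x.1 0 0
          rw [← imq_smul, mul_zero]
        · change (0 : ℍ[ℝ]) = c • (0 : ℍ[ℝ])
          rw [smul_zero]
        · change (0 : ℍ[ℝ]) = c • (0 : ℍ[ℝ])
          rw [smul_zero]
        · change (0 : ℍ[ℝ]) = c • (0 : ℍ[ℝ])
          rw [smul_zero]
        · exact imq_smul _ _ _ _ }

lemma hatS_apply (x : Hs) : hatS x = hatF x := rfl

/-- `prm` as a continuous linear map -/
noncomputable def prmS : M3 →L[ℝ] Vs :=
  LinearMap.toContinuousLinearMap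
    { toFun := prmF
      map_add' := by
        intro S T
        refine Prod.ext (Prod.ext ?_ (Prod.ext ?_ ?_)) rfl
        · change ((S 0 0 + T 0 0).imI - (S 1 1 + T 1 1).imI) / 2 =
            ((S 0 0).imI - (S 1 1).imI) / 2 + ((T 0 0).imI - (T 1 1).imI) / 2
          simp only [Quaternion.imI_add]
          ring
        · rfl
        · rfl
      map_smul' := by
        intro c S
        refine Prod.ext (Prod.ext ?_ (Prod.ext ?_ ?_)) rfl
        · change ((c • S 0 0).imI - (c • S 1 1).imI) / 2 = c * (((S 0 0).imI - (S 1 1).imI) / 2)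
          simp only [Quaternion.imI_smul, smul_eq_mul]
          ring
        · rfl
        · rfl }

lemma prmS_apply (S : M3) : prmS S = prmF S := rfl

/-- `prh` as a continuous linear map -/
noncomputable def prhS : M3 →L[ℝ] Hs :=
  LinearMap.toContinuousLinearMap
    { toFun := prhF
      map_add' := by
        intro S T
        refine Prod.ext ?_ rfl
        change ((S 0 0 + T 0 0).imI + (S 1 1 + T 1 1).imI) / 2 =
            ((S 0 0).imI + (S 1 1).imI) / 2 + ((T 0 0).imI + (T 1 1).imI) / 2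
        simp only [Quaternion.imI_add]
        ring
      map_smul' := by
        intro c S
        refine Prod.ext ?_ rfl
        change ((c • S 0 0).imI + (c • S 1 1).imI) / 2 = c * (((S 0 0).imI + (S 1 1).imI) / 2)
        simp only [Quaternion.imI_smul, smul_eq_mul]
        ring }

lemma prhS_apply (S : M3) : prhS S = prhF S := rfl

/-- The commutator as a continuous bilinear map. -/
noncomputable def brS : M3 →L[ℝ] M3 →L[ℝ] M3 :=
  ContinuousLinearMap.mul ℝ M3 - (ContinuousLinearMap.mul ℝ M3).flip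

/-- `(x, y) ↦ p (m (f x) (g y))` -/
noncomputable def compM {U V Z : Type*} [NormedAddCommGroup U] [NormedSpace ℝ U]
    [NormedAddCommGroup V] [NormedSpace ℝ V] [NormedAddCommGroup Z] [NormedSpace ℝ Z]
    (m : M3 →L[ℝ] M3 →L[ℝ] M3) (p : M3 →L[ℝ] Z) (f : U →L[ℝ] M3) (g : V →L[ℝ] M3) :
    U →L[ℝ] V →L[ℝ] Z :=
  ((ContinuousLinearMap.compL ℝ V M3 Z p).comp
    (((ContinuousLinearMap.compL ℝ V M3 M3).flip g).comp m)).comp f

lemma compM_apply {U V Z : Type*} [NormedAddCommGroup U] [NormedSpace ℝ U]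
    [NormedAddCommGroup V] [NormedSpace ℝ V] [NormedAddCommGroup Z] [NormedSpace ℝ Z]
    (m : M3 →L[ℝ] M3 →L[ℝ] M3) (p : M3 →L[ℝ] Z) (f : U →L[ℝ] M3) (g : V →L[ℝ] M3) (x : U)
    (y : V) : compM m p f g x y = p (m (f x) (g y)) := rfl

/-- The bracket data of `Sp(3)/{diag(z, z, q)}`. -/
noncomputable def datS : RedData Vs Hs where
  mm := compM brS prmS iotaS iotaS
  mh := compM brS prhS iotaS iotaS
  act := compM brS prmS hatS iotaS
  mm_self := by
    intro x
    have h : brS (iotaS x) (iotaS x) = 0 := sub_self _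
    rw [compM_apply, h, map_zero]
  mh_self := by
    intro x
    have h : brS (iotaS x) (iotaS x) = 0 := sub_self _
    rw [compM_apply, h, map_zero]

lemma datS_mm (x y : Vs) : datS.mm x y = prmS (iotaS x * iotaS y - iotaS y * iotaS x) := rfl
lemma datS_mh (x y : Vs) : datS.mh x y = prhS (iotaS x * iotaS y - iotaS y * iotaS x) := rfl
lemma datS_act (A : Hs) (x : Vs) : datS.act A x = prmS (hatS A * iotaS x - iotaS x * hatS A) := rfl

/-- real part of the trace -/
noncomputable def tauS : M3 →L[ℝ] ℝ :=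
  LinearMap.toContinuousLinearMap
    { toFun := fun S => (S 0 0).re + (S 1 1).re + (S 2 2).re
      map_add' := by
        intro S T
        simp only [Matrix.add_apply, Quaternion.re_add]
        ring
      map_smul' := by
        intro c S
        simp only [Matrix.smul_apply, Quaternion.re_smul, smul_eq_mul, RingHom.id_apply]
        ring }

lemma tauS_apply (S : M3) : tauS S = (S 0 0).re + (S 1 1).re + (S 2 2).re := rfl

/-- The invariant inner product `-½ Re tr`. -/
noncomputable def QS : Vs →L[ℝ] Vs →L[ℝ] ℝ :=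
  compM (ContinuousLinearMap.mul ℝ M3) (-((1 / 2 : ℝ) • tauS)) iotaS iotaS

lemma QS_apply (x y : Vs) : QS x y = -(1 / 2) * tauS (iotaS x * iotaS y) := by
  change -((1 / 2 : ℝ) * tauS (iotaS x * iotaS y)) = _
  ring

/-- `-Ad diag(1, 1, -1)` -/
noncomputable def TS : Vs ≃L[ℝ] Vs :=
  ContinuousLinearEquiv.prodCongr (ContinuousLinearEquiv.neg ℝ)
    (ContinuousLinearEquiv.prodCongr (ContinuousLinearEquiv.neg ℝ)
      (ContinuousLinearEquiv.refl ℝ (ℍ[ℝ] × ℍ[ℝ])))

lemma TS_apply (x : Vs) : TS x = (-x.1, -x.2.1, x.2.2) := rfl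

/-- `S ∈ 𝔰𝔭(3)` -/
def IsSp (S : M3) : Prop := star S = -S

end S3
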