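import Pool.Agent.S3.RA

/-! MODULE RB (diff 2): the base point and its tangent space.

`w0 = N3`, `N = N3`.  For `X` skew (`star X = -X`, `iota_sp`, `hat_sp`) the tangent vector is `D = X N - N X`
(`actS_fderiv`), with entries
`D 0 0 = X₀₀ i - i X₀₀ - X₁₀`, `D 0 1 = X₀₀ - i X₀₁ - X₁₁`, `D 0 2 = -i X₀₂ - X₁₂`, `D 1 0 = X₁₀ i`, `D 1 1 = X₁₀`,
`D 1 2 = 0`, `D 2 0 = X₂₀ i`, `D 2 1 = X₂₀`, `D 2 2 = 0`.
For `X = iotaS x`: `b = -star D₁₁`, `v₁ = -star D₂₁`, `v₂ = -D₀₂ - i v₁`,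
`D₀₀ + D₁₁ = 2 a₃ j - 2 a₂ k`, and with `e = i star D₁₁ - D₀₁`: `qc = qa + e`, so `s = -e.imI / 2`, `c₂ = a₂ + e.imJ`,
`c₃ = a₃ + e.imK`.
* `hat_N3`: `hatS A` commutes with `N` (`(t i) i = i (t i)`), explicit.
* `g0S = diag(1, 1, -1)`: `g0 N g0 = N`; `actS g0 (tau x) = -tau (TS x)`: explicit
  (`g0 (X N - N X) g0 = (g0 X g0) N - N (g0 X g0)` and `g0 X g0 = -iotaS (TS x)`).
-/

namespace S3

open HFinG HG
open scoped Matrix ContDiff Matrix.Norms.Operator Quaternion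

/-- the quaternion `i` -/
def qi : ℍ[ℝ] := imq 1 0 0

/-- coordinates at the base point -/
noncomputable def cF (D : W3) : Vs :=
  (((D 0 1 - qi * star (D 1 1)).imI / 2,
      (-(D 0 0 + D 1 1).imK / 2, (D 0 0 + D 1 1).imJ / 2),
      (-(D 0 0 + D 1 1).imK / 2 + (qi * star (D 1 1) - D 0 1).imJ,
        (D 0 0 + D 1 1).imJ / 2 + (qi * star (D 1 1) - D 0 1).imK)),
    -star (D 1 1), -star (D 2 1), -D 0 2 + qi * star (D 2 1))

theorem cF_add (S T : W3) : cF (S + T) = cF S + cF T := by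
  have h : ∀ i j, (S + T) i j = S i j + T i j := fun _ _ => rfl
  unfold cF
  refine Prod.ext (Prod.ext ?_ (Prod.ext (Prod.ext ?_ ?_) (Prod.ext ?_ ?_)))
    (Prod.ext ?_ (Prod.ext ?_ ?_)) <;>
  simp only [h, Prod.fst_add, Prod.snd_add, star_add, mul_add, Quaternion.imI_add,
    Quaternion.imJ_add, Quaternion.imK_add, Quaternion.imI_sub, Quaternion.imJ_sub,
    Quaternion.imK_sub] <;>
  first
    | ring
    | abel

theorem cF_smul (c : ℝ) (S : W3) : cF (c • S) = c • cF S := by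
  have h : ∀ i j, (c • S) i j = c • S i j := fun _ _ => rfl
  unfold cF
  refine Prod.ext (Prod.ext ?_ (Prod.ext (Prod.ext ?_ ?_) (Prod.ext ?_ ?_)))
    (Prod.ext ?_ (Prod.ext ?_ ?_))
  · simp only [h, Prod.smul_fst, Quaternion.star_smul, mul_smul_comm, Quaternion.imI_smul,
      Quaternion.imI_sub, smul_eq_mul]
    ring
  · simp only [h, Prod.smul_fst, Prod.smul_snd, Quaternion.imK_smul, Quaternion.imK_add,
      smul_eq_mul]
    ring
  · simp only [h, Prod.smul_fst, Prod.smul_snd, Quaternion.imJ_smul, Quaternion.imJ_add,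
      smul_eq_mul]
    ring
  · simp only [h, Prod.smul_fst, Prod.smul_snd, Quaternion.star_smul, mul_smul_comm,
      Quaternion.imK_smul, Quaternion.imK_add, Quaternion.imJ_smul, Quaternion.imJ_sub,
      smul_eq_mul]
    ring
  · simp only [h, Prod.smul_fst, Prod.smul_snd, Quaternion.star_smul, mul_smul_comm,
      Quaternion.imK_smul, Quaternion.imJ_add, Quaternion.imJ_smul, Quaternion.imK_sub,
      smul_eq_mul]
    ring
  · simp only [h, Prod.smul_fst, Prod.smul_snd, Quaternion.star_smul, smul_neg]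
  · simp only [h, Prod.smul_fst, Prod.smul_snd, Quaternion.star_smul, smul_neg]
  · simp only [h, Prod.smul_fst, Prod.smul_snd, Quaternion.star_smul, smul_neg, smul_add,
      mul_smul_comm]

/-- coordinates at the base point -/
noncomputable def cS : W3 →L[ℝ] Vs :=
  LinearMap.toContinuousLinearMap
    { toFun := cF
      map_add' := cF_add
      map_smul' := cF_smul }

lemma cS_apply (D : W3) : cS D = cF D := rfl

theorem RB_D (X : M3) : fderiv ℝ (actS : M3 → W3 →L[ℝ] W3) 1 X N3 =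
    ![![X 0 0 * qi + (qi * star (X 0 0) + star (X 0 1)),
        X 0 0 + (qi * star (X 1 0) + star (X 1 1)), qi * star (X 2 0) + star (X 2 1)],
      ![X 1 0 * qi, X 1 0, 0], ![X 2 0 * qi, X 2 0, 0]] := by
  funext i j
  rw [actS_fderiv]
  have hq : (⟨0, 1, 0, 0⟩ : ℍ[ℝ]) = qi := rfl
  fin_cases i <;> fin_cases j <;>
  simp [Matrix.add_apply, Matrix.mul_apply, Fin.sum_univ_three, N3, hq, Matrix.star_apply,
    Matrix.vecMul, dotProduct]

theorem cS_iota (x : Vs) : cS (fderiv ℝ (actS : M3 → W3 →L[ℝ] W3) 1 (iotaS x) N3) = x := by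
  rw [cS_apply, RB_D, iotaS_apply]
  obtain ⟨⟨s, ⟨a2, a3⟩, ⟨c2, c3⟩⟩, b, v1, v2⟩ := x
  refine Prod.ext (Prod.ext ?_ (Prod.ext (Prod.ext ?_ ?_) (Prod.ext ?_ ?_)))
    (Prod.ext ?_ (Prod.ext ?_ ?_))
  · simp [cF, iotaF, qa, qc, qi]
    ring
  · simp [cF, iotaF, qa, qc, qi]
    ring
  · simp [cF, iotaF, qa, qc, qi]
    ring
  · simp [cF, iotaF, qa, qc, qi]
    ring
  · simp [cF, iotaF, qa, qc, qi]
    ring
  · simp [cF, iotaF]
  · simp [cF, iotaF]
  · simp [cF, iotaF]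

theorem hat_N3 (A : Hs) : fderiv ℝ (actS : M3 → W3 →L[ℝ] W3) 1 (hatS A) N3 = 0 := by
  rw [RB_D, hatS_apply]
  funext i j
  have h1 : imq A.1 0 0 * qi = qi * imq A.1 0 0 := by
    ext <;> simp [qi]
  fin_cases i <;> fin_cases j <;> simp [hatF, star_imq, h1]

/-- The representation. -/
noncomputable def repS : RepModel matS W3 where
  ρ := actS
  smooth := actS_smooth
  one := actS_one
  mul := actS_mul
  w0 := N3
  c := cS
  c_iota := cS_iota
  hat_w0 := hat_N3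

/-- `diag(1, 1, -1)` -/
noncomputable def g0S : M3 := Matrix.diagonal ![1, 1, -1]

theorem RB_star : star g0S = g0S := by
  unfold g0S
  rw [Matrix.star_eq_conjTranspose, Matrix.diagonal_conjTranspose]
  congr 1
  funext i
  fin_cases i <;> simp

theorem RB_sq : g0S * g0S = 1 := by
  unfold g0S
  rw [Matrix.diagonal_mul_diagonal, ← Matrix.diagonal_one]
  congr 1
  funext i
  fin_cases i <;> simp

theorem g0_mem : g0S ∈ Sp3 := by
  constructor <;> rw [RB_star, RB_sq]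

theorem RB_act (T : W3) : actS g0S T = ![![T 0 0, T 0 1, -T 0 2], ![T 1 0, T 1 1, -T 1 2],
    ![-T 2 0, -T 2 1, T 2 2]] := by
  rw [actS_apply]
  funext i j
  unfold conj3
  rw [RB_star]
  unfold g0S
  rw [Matrix.mul_diagonal, Matrix.diagonal_mul]
  fin_cases i <;> fin_cases j <;> simp

theorem g0_fix : actS g0S N3 = N3 := by
  rw [RB_act]
  funext i j
  fin_cases i <;> fin_cases j
  · rfl
  all_goals simp [N3]

theorem g0_tau (x : Vs) : actS g0S (repS.tau x) = -repS.tau (TS x) := by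
  show actS g0S (fderiv ℝ (actS : M3 → W3 →L[ℝ] W3) 1 (iotaS x) N3)
    = -(fderiv ℝ (actS : M3 → W3 →L[ℝ] W3) 1 (iotaS (TS x)) N3)
  rw [RB_D, RB_D, RB_act, iotaS_apply, iotaS_apply, TS_apply]
  obtain ⟨⟨s, ⟨a2, a3⟩, ⟨c2, c3⟩⟩, b, v1, v2⟩ := x
  have n1 : imq (-s) (-a2) (-a3) = -imq s a2 a3 := by ext <;> simp
  have n2 : imq s (-c2) (-c3) = -imq (-s) c2 c3 := by ext <;> simp
  funext i j
  fin_cases i <;> fin_cases j
  · simp [iotaF, qa, qc, n1, star_imq]
    abel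
  · simp [iotaF, qa, qc, n1, n2, star_imq]
    abel
  · simp [iotaF, qa, qc]
  · simp [iotaF]
  · simp [iotaF]
  · simp [iotaF]
  · simp [iotaF]
  · simp [iotaF]
  · simp [iotaF]

end S3
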