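import Mathlib

/-! Definitions for the statement: `Sp(3)`, the orbit and the isotropy group. -/

namespace S3

open scoped Matrix Quaternion

/-- Quaternionic `3 × 3` matrices as a real vector space. -/
abbrev W3 := Fin 3 → Fin 3 → ℍ[ℝ]

/-- The compact group `Sp(3)` of unitary quaternionic `3 × 3` matrices. -/
def Sp3 : Set (Matrix (Fin 3) (Fin 3) ℍ[ℝ]) := {g | star g * g = 1 ∧ g * star g = 1}

/-- The action of `g ∈ Sp(3)` on quaternionic matrices: `T ↦ g T g*`. -/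
noncomputable def conj3 (g : Matrix (Fin 3) (Fin 3) ℍ[ℝ]) (T : W3) : W3 :=
  fun i j => (g * Matrix.of T * star g) i j

/-- The base point, the matrix `!![i, 1, 0; 0, 0, 0; 0, 0, 0]`. -/
noncomputable def N3 : W3 := ![![⟨0, 1, 0, 0⟩, 1, 0], ![0, 0, 0], ![0, 0, 0]]

/-- The orbit of `N3` under `Sp(3)`. -/
noncomputable def Space3 : Set W3 := {T | ∃ g ∈ Sp3, conj3 g N3 = T}

/-- The subgroup `{diag(z, z, q) : z ∈ ℂ, q ∈ ℍ, |z| = |q| = 1}` of `Sp(3)`, `ℂ = ℝ + ℝ i ⊂ ℍ`. -/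
noncomputable def Iso3 : Set (Matrix (Fin 3) (Fin 3) ℍ[ℝ]) :=
  {g | ∃ (a b : ℝ) (q : ℍ[ℝ]), a ^ 2 + b ^ 2 = 1 ∧ ‖q‖ = 1 ∧
    g = !![⟨a, b, 0, 0⟩, 0, 0; 0, ⟨a, b, 0, 0⟩, 0; 0, 0, q]}

end S3
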