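import Pool.Agent.S3.MA
import Pool.Agent.S3.Space
import Pool.Agent.HG.A1

/-! MODULE RC (diff 1): `exp 𝔰𝔭(3) ⊆ Sp(3)`, `Sp3` is a group.

`star (exp S) = exp (star S) = exp (-S)` (`NormedSpace.star_exp`, needs `ContinuousStar M3`, instance found
automatically; or `Matrix.exp_conjTranspose`), `exp (-S) * exp S = 1` (`exp_neg_mul`, `exp_mul_neg` in HG/A1).
-/

namespace S3

open HFinG HG
open scoped Matrix ContDiff Matrix.Norms.Operator Quaternion

theorem exp_sp {S : M3} (hS : IsSp S) : NormedSpace.exp S ∈ Sp3 := by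
  have h : star (NormedSpace.exp S) = NormedSpace.exp (-S) := by
    rw [NormedSpace.star_exp, hS]
  refine ⟨?_, ?_⟩
  · rw [h]
    exact exp_neg_mul S
  · rw [h]
    exact exp_mul_neg S

theorem one_sp3 : (1 : M3) ∈ Sp3 := by
  refine ⟨?_, ?_⟩
  · rw [star_one, one_mul]
  · rw [star_one, mul_one]

theorem mul_sp3 {g h : M3} (hg : g ∈ Sp3) (hh : h ∈ Sp3) : g * h ∈ Sp3 := by
  obtain ⟨hg1, hg2⟩ := hg
  obtain ⟨hh1, hh2⟩ := hh
  refine ⟨?_, ?_⟩
  · rw [star_mul, mul_assoc, ← mul_assoc (star g), hg1, one_mul, hh1]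
  · rw [star_mul, mul_assoc, ← mul_assoc h, hh2, one_mul, hg2]

end S3
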