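import Pool.Agent.S3.Space

/-! MODULE RD (diff 2): the isotropy group of `N3`.

`g N g* = N` (`N = Matrix.of N3`) with `g` unitary is `g N = N g`.  Entries: `(g N) i 0 = g_{i0} i`, `(g N) i 1 = g_{i0}`, `(g N) i 2 = 0`;
`(N g) 0 j = i g_{0j} + g_{1j}`, `(N g) 1 j = (N g) 2 j = 0`.  So `g₁₀ = g₂₀ = 0`, `g₀₀ i = i g₀₀` (so
`g₀₀ = a + b i`), `g₀₀ = i g₀₁ + g₁₁`, `0 = i g₀₂ + g₁₂`.  Unitarity: the first column has norm one, `|g₀₀| = 1`; the
first row has norm one, so `g₀₁ = g₀₂ = 0` (`(g * star g) 0 0 = 1`: `∑ |g₀ⱼ|² = 1`, `Quaternion.self_mul_star`,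
`Quaternion.normSq`), `g₁₁ = g₀₀`, `g₁₂ = 0`; `(star g * g) 1 1 = 1`: `g₂₁ = 0`; `|g₂₂| = 1`.
Conversely `diag(z, z, q)` is unitary (`z z̄ = a² + b² = 1`, `q q̄ = 1`) and commutes with `N`.
-/

namespace S3

open scoped Matrix Quaternion

/-- the quaternion `i` -/
noncomputable def RD_i : ℍ[ℝ] := ⟨0, 1, 0, 0⟩

@[simp] theorem RD_i_re : RD_i.re = 0 := rfl
@[simp] theorem RD_i_imI : RD_i.imI = 1 := rfl
@[simp] theorem RD_i_imJ : RD_i.imJ = 0 := rfl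
@[simp] theorem RD_i_imK : RD_i.imK = 0 := rfl

theorem RD_gN (g : Matrix (Fin 3) (Fin 3) ℍ[ℝ]) (i : Fin 3) :
    (g * Matrix.of N3) i 0 = g i 0 * RD_i ∧ (g * Matrix.of N3) i 1 = g i 0 ∧
      (g * Matrix.of N3) i 2 = 0 := by
  have a00 : (Matrix.of N3 : Matrix (Fin 3) (Fin 3) ℍ[ℝ]) 0 0 = RD_i := rfl
  have a01 : (Matrix.of N3 : Matrix (Fin 3) (Fin 3) ℍ[ℝ]) 0 1 = 1 := rfl
  have a02 : (Matrix.of N3 : Matrix (Fin 3) (Fin 3) ℍ[ℝ]) 0 2 = 0 := rfl
  have a1 : ∀ j, (Matrix.of N3 : Matrix (Fin 3) (Fin 3) ℍ[ℝ]) 1 j = 0 := by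
    intro j; fin_cases j <;> rfl
  have a2 : ∀ j, (Matrix.of N3 : Matrix (Fin 3) (Fin 3) ℍ[ℝ]) 2 j = 0 := by
    intro j; fin_cases j <;> rfl
  refine ⟨?_, ?_, ?_⟩
  · rw [Matrix.mul_apply, Fin.sum_univ_three, a00, a1, a2, mul_zero, mul_zero, add_zero, add_zero]
  · rw [Matrix.mul_apply, Fin.sum_univ_three, a01, a1, a2, mul_zero, mul_zero, add_zero, add_zero,
      mul_one]
  · rw [Matrix.mul_apply, Fin.sum_univ_three, a02, a1, a2, mul_zero, mul_zero, mul_zero, add_zero,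
      add_zero]

theorem RD_Ng (g : Matrix (Fin 3) (Fin 3) ℍ[ℝ]) (j : Fin 3) :
    ((Matrix.of N3 : Matrix (Fin 3) (Fin 3) ℍ[ℝ]) * g) 0 j = RD_i * g 0 j + g 1 j ∧
      ((Matrix.of N3 : Matrix (Fin 3) (Fin 3) ℍ[ℝ]) * g) 1 j = 0 ∧
      ((Matrix.of N3 : Matrix (Fin 3) (Fin 3) ℍ[ℝ]) * g) 2 j = 0 := by
  have a00 : (Matrix.of N3 : Matrix (Fin 3) (Fin 3) ℍ[ℝ]) 0 0 = RD_i := rfl
  have a01 : (Matrix.of N3 : Matrix (Fin 3) (Fin 3) ℍ[ℝ]) 0 1 = 1 := rfl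
  have a02 : (Matrix.of N3 : Matrix (Fin 3) (Fin 3) ℍ[ℝ]) 0 2 = 0 := rfl
  have a1 : ∀ j, (Matrix.of N3 : Matrix (Fin 3) (Fin 3) ℍ[ℝ]) 1 j = 0 := by
    intro j; fin_cases j <;> rfl
  have a2 : ∀ j, (Matrix.of N3 : Matrix (Fin 3) (Fin 3) ℍ[ℝ]) 2 j = 0 := by
    intro j; fin_cases j <;> rfl
  refine ⟨?_, ?_, ?_⟩
  · rw [Matrix.mul_apply, Fin.sum_univ_three, a00, a01, a02, zero_mul, add_zero, one_mul]
  · rw [Matrix.mul_apply, Fin.sum_univ_three, a1, a1, a1, zero_mul, zero_mul, zero_mul, add_zero,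
      add_zero]
  · rw [Matrix.mul_apply, Fin.sum_univ_three, a2, a2, a2, zero_mul, zero_mul, zero_mul, add_zero,
      add_zero]

/-- unitarity, by columns -/
theorem RD_col {g : Matrix (Fin 3) (Fin 3) ℍ[ℝ]} (hg : star g * g = 1) (j : Fin 3) :
    Quaternion.normSq (g 0 j) + Quaternion.normSq (g 1 j) + Quaternion.normSq (g 2 j) = 1 := by
  have h := congrFun (congrFun hg j) j
  rw [Matrix.mul_apply, Fin.sum_univ_three, Matrix.one_apply_eq] at h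
  simp only [Matrix.star_apply, Quaternion.star_mul_self] at h
  have h2 := congrArg (fun x : ℍ[ℝ] => x.re) h
  simpa using h2

/-- unitarity, by rows -/
theorem RD_row {g : Matrix (Fin 3) (Fin 3) ℍ[ℝ]} (hg : g * star g = 1) (i : Fin 3) :
    Quaternion.normSq (g i 0) + Quaternion.normSq (g i 1) + Quaternion.normSq (g i 2) = 1 := by
  have h := congrFun (congrFun hg i) i
  rw [Matrix.mul_apply, Fin.sum_univ_three, Matrix.one_apply_eq] at h
  simp only [Matrix.star_apply, Quaternion.self_mul_star] at h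
  have h2 := congrArg (fun x : ℍ[ℝ] => x.re) h
  simpa using h2

/-- the quaternion `a + b i` -/
noncomputable def RD_c (a b : ℝ) : ℍ[ℝ] := ⟨a, b, 0, 0⟩

@[simp] theorem RD_c_re (a b : ℝ) : (RD_c a b).re = a := rfl
@[simp] theorem RD_c_imI (a b : ℝ) : (RD_c a b).imI = b := rfl
@[simp] theorem RD_c_imJ (a b : ℝ) : (RD_c a b).imJ = 0 := rfl
@[simp] theorem RD_c_imK (a b : ℝ) : (RD_c a b).imK = 0 := rfl

theorem RD_z {a b : ℝ} (h : a ^ 2 + b ^ 2 = 1) :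
    star (RD_c a b) * RD_c a b = 1 ∧ RD_c a b * star (RD_c a b) = 1 := by
  have h1 : Quaternion.normSq (RD_c a b) = 1 := by
    rw [Quaternion.normSq_def']
    change a ^ 2 + b ^ 2 + 0 ^ 2 + 0 ^ 2 = 1
    linarith
  rw [Quaternion.star_mul_self, Quaternion.self_mul_star, h1]
  exact ⟨rfl, rfl⟩

theorem RD_q {q : ℍ[ℝ]} (h : ‖q‖ = 1) : star q * q = 1 ∧ q * star q = 1 := by
  have h1 : Quaternion.normSq q = 1 := by
    rw [Quaternion.normSq_eq_norm_mul_self, h, one_mul]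
  rw [Quaternion.star_mul_self, Quaternion.self_mul_star, h1]
  exact ⟨rfl, rfl⟩

theorem RD_mem' {z q : ℍ[ℝ]} (z1 : star z * z = 1) (z2 : z * star z = 1)
    (q1 : star q * q = 1) (q2 : q * star q = 1) :
    (!![z, 0, 0; 0, z, 0; 0, 0, q] : Matrix (Fin 3) (Fin 3) ℍ[ℝ]) ∈ Sp3 := by
  constructor
  · refine Matrix.ext fun i j => ?_
    rw [Matrix.mul_apply, Fin.sum_univ_three]
    simp only [Matrix.star_apply]
    fin_cases i <;> fin_cases j <;> simp [z1, q1]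
  · refine Matrix.ext fun i j => ?_
    rw [Matrix.mul_apply, Fin.sum_univ_three]
    simp only [Matrix.star_apply]
    fin_cases i <;> fin_cases j <;> simp [z2, q2]

theorem RD_mem {a b : ℝ} {q : ℍ[ℝ]} (h : a ^ 2 + b ^ 2 = 1) (hq : ‖q‖ = 1) :
    (!![RD_c a b, 0, 0; 0, RD_c a b, 0; 0, 0, q] : Matrix (Fin 3) (Fin 3) ℍ[ℝ]) ∈ Sp3 :=
  RD_mem' (RD_z h).1 (RD_z h).2 (RD_q hq).1 (RD_q hq).2

theorem RD_comm {z q : ℍ[ℝ]} (hz : z * RD_i = RD_i * z) :
    (!![z, 0, 0; 0, z, 0; 0, 0, q] : Matrix (Fin 3) (Fin 3) ℍ[ℝ]) * Matrix.of N3 =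
      Matrix.of N3 * !![z, 0, 0; 0, z, 0; 0, 0, q] := by
  set g : Matrix (Fin 3) (Fin 3) ℍ[ℝ] := !![z, 0, 0; 0, z, 0; 0, 0, q] with hgdef
  refine Matrix.ext fun i j => ?_
  have f1 : ∀ i, (g * Matrix.of N3) i 0 = g i 0 * RD_i := fun i => (RD_gN g i).1
  have f2 : ∀ i, (g * Matrix.of N3) i 1 = g i 0 := fun i => (RD_gN g i).2.1
  have f3 : ∀ i, (g * Matrix.of N3) i 2 = 0 := fun i => (RD_gN g i).2.2
  have k1 : ∀ j, ((Matrix.of N3 : Matrix (Fin 3) (Fin 3) ℍ[ℝ]) * g) 0 j =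
    RD_i * g 0 j + g 1 j := fun j => (RD_Ng g j).1
  have k2 : ∀ j, ((Matrix.of N3 : Matrix (Fin 3) (Fin 3) ℍ[ℝ]) * g) 1 j = 0 :=
    fun j => (RD_Ng g j).2.1
  have k3 : ∀ j, ((Matrix.of N3 : Matrix (Fin 3) (Fin 3) ℍ[ℝ]) * g) 2 j = 0 :=
    fun j => (RD_Ng g j).2.2
  have a00 : g 0 0 = z := rfl
  have a01 : g 0 1 = 0 := rfl
  have a02 : g 0 2 = 0 := rfl
  have a10 : g 1 0 = 0 := rfl
  have a11 : g 1 1 = z := rfl
  have a12 : g 1 2 = 0 := rfl
  have a20 : g 2 0 = 0 := rfl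
  fin_cases i <;> fin_cases j
  · refine (f1 0).trans (Eq.trans ?_ (k1 0).symm)
    rw [a00, a10, add_zero, hz]
  · refine (f2 0).trans (Eq.trans ?_ (k1 1).symm)
    rw [a00, a01, a11, mul_zero, zero_add]
  · refine (f3 0).trans (Eq.trans ?_ (k1 2).symm)
    rw [a02, a12, mul_zero, add_zero]
  · refine (f1 1).trans (Eq.trans ?_ (k2 0).symm)
    rw [a10, zero_mul]
  · exact ((f2 1).trans a10).trans (k2 1).symm
  · exact (f3 1).trans (k2 2).symm
  · refine (f1 2).trans (Eq.trans ?_ (k3 0).symm)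
    rw [a20, zero_mul]
  · exact ((f2 2).trans a20).trans (k3 1).symm
  · exact (f3 2).trans (k3 2).symm

theorem iso3 : {g | g ∈ Sp3 ∧ conj3 g N3 = N3} = Iso3 := by
  ext g
  constructor
  · rintro ⟨⟨hg, hg'⟩, h⟩
    have h1 : g * Matrix.of N3 * star g = Matrix.of N3 := h
    have hc : g * Matrix.of N3 = Matrix.of N3 * g := by
      have h2 := congrArg (fun T => T * g) h1
      change g * Matrix.of N3 * star g * g = Matrix.of N3 * g at h2
      rwa [mul_assoc (g * Matrix.of N3), hg, mul_one] at h2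
    have e : ∀ i j, (g * Matrix.of N3) i j = ((Matrix.of N3 : Matrix (Fin 3) (Fin 3) ℍ[ℝ]) * g) i j :=
      fun i j => congrFun (congrFun hc i) j
    have g10 : g 1 0 = 0 := by
      rw [← (RD_gN g 1).2.1, e, (RD_Ng g 1).2.1]
    have g20 : g 2 0 = 0 := by
      rw [← (RD_gN g 2).2.1, e, (RD_Ng g 1).2.2]
    have e00 : g 0 0 * RD_i = RD_i * g 0 0 := by
      rw [← (RD_gN g 0).1, e, (RD_Ng g 0).1, g10, add_zero]
    have e01 : g 0 0 = RD_i * g 0 1 + g 1 1 := by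
      rw [← (RD_Ng g 1).1, ← e, (RD_gN g 0).2.1]
    have e02 : 0 = RD_i * g 0 2 + g 1 2 := by
      rw [← (RD_Ng g 2).1, ← e, (RD_gN g 0).2.2]
    have c0 := RD_col hg 0
    have c1 := RD_col hg 1
    have c2 := RD_col hg 2
    have r0 := RD_row hg' 0
    rw [g10, g20, map_zero, add_zero, add_zero] at c0
    have n1 := Quaternion.normSq_nonneg (a := g 0 1)
    have n2 := Quaternion.normSq_nonneg (a := g 0 2)
    have g01 : g 0 1 = 0 := Quaternion.normSq_eq_zero.1 (by linarith)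
    have g02 : g 0 2 = 0 := Quaternion.normSq_eq_zero.1 (by linarith)
    rw [g01, mul_zero, zero_add] at e01
    rw [g02, mul_zero, zero_add] at e02
    have n3 := Quaternion.normSq_nonneg (a := g 2 1)
    rw [g01, ← e01, c0, map_zero, zero_add] at c1
    have g21 : g 2 1 = 0 := Quaternion.normSq_eq_zero.1 (by linarith)
    rw [g02, ← e02, map_zero, zero_add, zero_add] at c2
    have hJ : (g 0 0).imJ = 0 := by
      have := congrArg (fun x : ℍ[ℝ] => x.imK) e00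
      simp at this
      linarith
    have hK : (g 0 0).imK = 0 := by
      have := congrArg (fun x : ℍ[ℝ] => x.imJ) e00
      simp at this
      linarith
    have h00 : g 0 0 = ⟨(g 0 0).re, (g 0 0).imI, 0, 0⟩ := by
      apply Quaternion.ext <;> simp [hJ, hK]
    refine ⟨(g 0 0).re, (g 0 0).imI, g 2 2, ?_, ?_, ?_⟩
    · rw [Quaternion.normSq_def'] at c0
      rw [hJ, hK] at c0
      linarith
    · rw [Quaternion.normSq_eq_norm_mul_self] at c2
      have := norm_nonneg (g 2 2)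
      nlinarith
    · refine Matrix.ext fun i j => ?_
      fin_cases i <;> fin_cases j
      · exact h00
      · exact g01
      · exact g02
      · exact g10
      · exact e01.symm.trans h00
      · exact e02.symm
      · exact g20
      · exact g21
      · rfl
  · rintro ⟨a, b, q, h, hq, rfl⟩
    change (!![RD_c a b, 0, 0; 0, RD_c a b, 0; 0, 0, q] : Matrix (Fin 3) (Fin 3) ℍ[ℝ]) ∈ Sp3 ∧
      !![RD_c a b, 0, 0; 0, RD_c a b, 0; 0, 0, q] * Matrix.of N3 *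
        star !![RD_c a b, 0, 0; 0, RD_c a b, 0; 0, 0, q] = Matrix.of N3
    have hm := RD_mem h hq
    refine ⟨hm, ?_⟩
    have hc := RD_comm (z := RD_c a b) (q := q) (by
      apply Quaternion.ext <;> simp)
    rw [hc, mul_assoc, hm.2, mul_one]

end S3
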