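import Pool.Agent.S3.MD
import Pool.Agent.S3.RB
import Pool.Agent.S3.RC
import Pool.Agent.S3.RD
import Pool.Agent.HG.C3
import Pool.Agent.HX.Stmt

/-! MODULE Final (diff 2): assembly; copy `Pool/Agent/HX/Final.lean` and `HX/Stmt.lean` (landed; in
`outputs/live/Pool/Agent/HX/`) with `matX → matS`, `repX → repS`, `Space4 → Space3`, `exp_su → exp_sp`, `iota_su → iota_sp`,
`hat_su → hat_sp`, `act4 → actS` (`actS_apply`), dimension `17`.

* `Final_mem`: `actS (matS.sec v) N3 ∈ Space3` by definition of `Space3` (`exp_sp (iota_sp v)`).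
* `inv_of_exp` gives the infinitesimal invariance needed for `posFlag_of_finsler`.
-/

namespace S3

open HFinG HG HX
open scoped Matrix ContDiff Matrix.Norms.Operator Quaternion

/-- `ℝ¹⁷` -/
abbrev E17 := EuclideanSpace ℝ (Fin 17)

/-- `F` is a reversible `Sp(3)`-invariant Finsler metric on `Space3`. -/
structure IsHomRev3 (F : W3 → W3 → ℝ) : Prop where
  finsler : IsFinslerOn E17 Space3 F
  inv : ∀ g ∈ Sp3, InvariantUnder E17 Space3 F (conj3 g)
  rev : ReversibleOn E17 Space3 F

theorem finrank_Vs : Module.finrank ℝ Vs = 17 := by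
  simp only [Vs, Module.finrank_prod, Quaternion.finrank_eq_four, Module.finrank_self]

theorem finrank_E17 : Module.finrank ℝ E17 = 17 := by
  rw [finrank_euclideanSpace, Fintype.card_fin]

theorem Final_sec (v : Vs) : matS.sec v ∈ Sp3 := exp_sp (iota_sp v)

theorem Final_mem (v : Vs) : repS.ρ (matS.sec v) repS.w0 ∈ Space3 :=
  ⟨matS.sec v, Final_sec v, rfl⟩

theorem Final_act {g : M3} (hg : g ∈ Sp3) {T : W3} (hT : T ∈ Space3) : actS g T ∈ Space3 := by
  obtain ⟨h, hh, rfl⟩ := hT
  refine ⟨g * h, mul_sp3 hg hh, ?_⟩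
  change actS (g * h) N3 = actS g (actS h N3)
  rw [actS_mul]
  rfl

/-- a parametrization near the base point -/
theorem Final_chart {V' : Type*} [NormedAddCommGroup V'] [NormedSpace ℝ V']
    [FiniteDimensional ℝ V'] (hV : Module.finrank ℝ V' = 17) :
    ∃ (e : V' ≃L[ℝ] Vs) (U : Set V'), (0 : V') ∈ U ∧ IsParam Space3 U (repS.psi 1 ∘ e) ∧
      (repS.psi 1 ∘ e) 0 = N3 ∧ ∀ y, fderiv ℝ (repS.psi 1 ∘ e) 0 y = repS.tau (e y) := by
  obtain e : V' ≃L[ℝ] Vs := ContinuousLinearEquiv.ofFinrankEq (hV.trans finrank_Vs.symm)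
  obtain ⟨U0, h0, hU⟩ := psi_param repS isProjS Final_mem e
  refine ⟨e, e ⁻¹' U0, ?_, hU, (C3_zero repS isProjS e).1, (C3_zero repS isProjS e).2⟩
  change e 0 ∈ U0
  rwa [map_zero]

theorem sp3_no_reversible {V' : Type*} [NormedAddCommGroup V'] [NormedSpace ℝ V']
    [FiniteDimensional ℝ V'] (hV : Module.finrank ℝ V' = 17) {F : W3 → W3 → ℝ}
    (hF : IsFinslerOn V' Space3 F)
    (hinv : ∀ g ∈ Sp3, InvariantUnder V' Space3 F (conj3 g))
    (hrev : ReversibleOn V' Space3 F) : ¬ PosFlagOn V' Space3 F := by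
  intro hpos
  obtain ⟨e, U, h0, hU, hz, hd⟩ := Final_chart hV
  have hV2 : Module.finrank ℝ V' = Module.finrank ℝ Vs := hV.trans finrank_Vs.symm
  have hg : ∀ g ∈ Sp3, ∀ x,
      F (actS g N3) (actS g (repS.tau x)) = F N3 (repS.tau x) := by
    intro g hg x
    have h1 := hinv g hg U _ hU 0 h0 (e.symm x)
    rwa [hz, hd, e.apply_symm_apply] at h1
  have hr : ∀ x, F N3 (-(repS.tau x)) = F N3 (repS.tau x) := by
    intro x
    have h1 := hrev U _ hU 0 h0 (e.symm x)
    rwa [hz, hd, e.apply_symm_apply] at h1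
  have hsec : ∀ v x, F (repS.ρ (matS.sec v) repS.w0) (repS.ρ (matS.sec v) (repS.tau x)) =
      F repS.w0 (repS.tau x) := fun v x => hg _ (Final_sec v) x
  have hMink := norm_of_finsler repS isProjS hV2 Final_mem hF hsec
  have hH := inv_of_exp repS isProjS hMink (by
    intro A x
    have h1 := hg _ (exp_sp (hat_sp A)) x
    have h2 : actS (NormedSpace.exp (hatS A)) N3 = N3 := hat_fix repS A
    rw [h2] at h1
    exact h1)
  have hT : ∀ x, (fun x => F repS.w0 (repS.tau x)) (TS x) = (fun x => F repS.w0 (repS.tau x)) x := by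
    intro x
    have h1 := hg g0S g0_mem (TS x)
    rw [g0_fix, g0_tau] at h1
    have h2 : TS (TS x) = x := by
      rw [TS_apply, TS_apply]
      simp
    rw [h2, hr] at h1
    exact h1.symm
  exact not_posFlag hMink hT (posFlag_of_finsler repS isProjS hV2 Final_mem hF hsec hH hpos)

theorem space3_param {V' : Type*} [NormedAddCommGroup V'] [NormedSpace ℝ V']
    [FiniteDimensional ℝ V'] (hV : Module.finrank ℝ V' = 17) {t : W3} (ht : t ∈ Space3) :
    ∃ (U : Set V') (ψ : V' → W3), IsParam Space3 U ψ ∧ t ∈ ψ '' U := by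
  obtain ⟨e, U, h0, hU, hz, hd⟩ := Final_chart hV
  obtain ⟨g, hg, rfl⟩ := ht
  have hinj : Function.Injective (actS g) := by
    intro s t hst
    have h1 : actS (star g * g) s = actS (star g * g) t := by
      rw [actS_mul]
      change actS (star g) (actS g s) = actS (star g) (actS g t)
      rw [hst]
    rw [hg.1, actS_one] at h1
    exact h1
  refine ⟨U, actS g ∘ (repS.psi 1 ∘ e), ⟨hU.isOpen, ?_, ?_, ?_⟩, 0, h0, ?_⟩
  · exact (actS g).contDiff.comp_contDiffOn hU.smooth
  · intro v hv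
    exact Final_act hg (hU.mem v hv)
  · intro v hv
    have hdiff : DifferentiableAt ℝ (repS.psi 1 ∘ e) v :=
      (((psi_smooth repS 1).comp e.contDiff).differentiable (by simp)) v
    have h1 : fderiv ℝ (actS g ∘ (repS.psi 1 ∘ e)) v =
        (actS g).comp (fderiv ℝ (repS.psi 1 ∘ e) v) := by
      rw [fderiv_comp v (actS g).differentiableAt hdiff, (actS g).fderiv]
    rw [h1]
    exact hinj.comp (hU.inj v hv)
  · change actS g ((repS.psi 1 ∘ e) 0) = conj3 g N3
    rw [hz]
    rfl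

theorem space3_covered : Covered E17 Space3 := fun _ ht => space3_param finrank_E17 ht

theorem space3_not (F : W3 → W3 → ℝ) (hF : IsHomRev3 F) : ¬ PosFlagOn E17 Space3 F :=
  sp3_no_reversible finrank_E17 hF.finsler hF.inv hF.rev

end S3
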