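import Pool.Agent.S3.Defs

/-! MODULE MA (diff 2): `𝔰𝔭(3) = 𝔪 ⊕ 𝔥` as matrices; the `MatModel`.

Compare `Pool/Agent/HX/MA.lean` (landed).  Everything by explicit `3 × 3` matrices:
`refine Matrix.ext fun i j => ?_; fin_cases i <;> fin_cases j`, entries by `rfl`/`change`, then `Quaternion.ext`
(`ext`) and `simp` (`imq_re`, ...), `ring`/`linarith`.
* `iota_sp`, `hat_sp`: explicit (`star_imq`; `Matrix.star_eq_conjTranspose`, `Matrix.conjTranspose_apply`).
* `comm_sp`: `star (ST - TS) = star T star S - star S star T = TS - ST`.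
* `decomp_sp`: from `star (S j i) = -S i j`: diagonal entries have real part `0`, `S 1 0 = -star (S 0 1)` etc.
* `prh_hat_iota`: `prhS (hatS A * iotaS x - iotaS x * hatS A) = 0`: diagonal entries of the commutator are
  `[t i, s i + a₂ j + a₃ k]` (no `i`-component), `[t i, qc]`, and `q · 0 - 0 · q = 0`.
* `prm_hat_hat`: off-diagonal entries vanish, diagonal entries `0, 0` (first two).
-/

namespace S3

open HFinG HG
open scoped Matrix ContDiff Matrix.Norms.Operator Quaternion

theorem MA_of_entries {S : M3} (h : ∀ i j, star (S j i) = -S i j) : IsSp S := by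
  refine Matrix.ext fun i j => ?_
  rw [Matrix.star_eq_conjTranspose, Matrix.conjTranspose_apply, Matrix.neg_apply, h]

theorem MA_entries {S : M3} (h : IsSp S) (i j : Fin 3) : star (S j i) = -S i j := by
  have h1 := congrFun (congrFun h i) j
  rw [Matrix.star_eq_conjTranspose, Matrix.conjTranspose_apply, Matrix.neg_apply] at h1
  exact h1

theorem iota_sp (x : Vs) : IsSp (iotaS x) := by
  refine MA_of_entries fun i j => ?_
  rw [iotaS_apply]
  fin_cases i <;> fin_cases j
  · exact star_imq _ _ _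
  · change star (-star x.2.1) = -x.2.1
    rw [star_neg, star_star]
  · change star (-star x.2.2.1) = -x.2.2.1
    rw [star_neg, star_star]
  · change star x.2.1 = -(-star x.2.1)
    rw [neg_neg]
  · exact star_imq _ _ _
  · change star (-star x.2.2.2) = -x.2.2.2
    rw [star_neg, star_star]
  · change star x.2.2.1 = -(-star x.2.2.1)
    rw [neg_neg]
  · change star x.2.2.2 = -(-star x.2.2.2)
    rw [neg_neg]
  · change star (0 : ℍ[ℝ]) = -0
    rw [star_zero, neg_zero]

theorem hat_sp (A : Hs) : IsSp (hatS A) := by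
  refine MA_of_entries fun i j => ?_
  rw [hatS_apply]
  have h0 : star (0 : ℍ[ℝ]) = -0 := by rw [star_zero, neg_zero]
  fin_cases i <;> fin_cases j
  · exact star_imq _ _ _
  · exact h0
  · exact h0
  · exact h0
  · exact star_imq _ _ _
  · exact h0
  · exact h0
  · exact h0
  · exact star_imq _ _ _

theorem comm_sp {S T : M3} (hS : IsSp S) (hT : IsSp T) : IsSp (S * T - T * S) := by
  unfold IsSp at hS hT ⊢
  rw [star_sub, star_mul, star_mul, hS, hT, neg_mul_neg, neg_mul_neg, neg_sub]

theorem MA_prm_iota (x : Vs) : prmS (iotaS x) = x := by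
  rw [prmS_apply, iotaS_apply]
  refine Prod.ext (Prod.ext ?_ (Prod.ext rfl rfl)) rfl
  change (x.1.1 - (-x.1.1)) / 2 = x.1.1
  ring

theorem MA_prm_hat (A : Hs) : prmS (hatS A) = 0 := by
  rw [prmS_apply, hatS_apply]
  refine Prod.ext (Prod.ext ?_ (Prod.ext rfl rfl)) rfl
  change (A.1 - A.1) / 2 = 0
  ring

theorem MA_prh_iota (x : Vs) : prhS (iotaS x) = 0 := by
  rw [prhS_apply, iotaS_apply]
  refine Prod.ext ?_ rfl
  change (x.1.1 + (-x.1.1)) / 2 = 0
  ring

theorem MA_prh_hat (A : Hs) : prhS (hatS A) = A := by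
  rw [prhS_apply, hatS_apply]
  refine Prod.ext ?_ rfl
  change (A.1 + A.1) / 2 = A.1
  ring

theorem prm_inc (x : Vs) (A : Hs) : prmS (iotaS x + hatS A) = x := by
  rw [map_add, MA_prm_iota, MA_prm_hat, add_zero]

theorem prh_inc (x : Vs) (A : Hs) : prhS (iotaS x + hatS A) = A := by
  rw [map_add, MA_prh_iota, MA_prh_hat, zero_add]

theorem MA_re {S : M3} (hS : IsSp S) (i : Fin 3) : (S i i).re = 0 := by
  have h := congrArg (fun q : ℍ[ℝ] => q.re) (MA_entries hS i i)
  simp only [Quaternion.re_star, Quaternion.re_neg] at h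
  linarith

theorem decomp_sp {S : M3} (hS : IsSp S) : S = iotaS (prmS S) + hatS (prhS S) := by
  have r0 := MA_re hS 0
  have r1 := MA_re hS 1
  have r2 := MA_re hS 2
  have l : ∀ i j, S i j = -star (S j i) := fun i j => by rw [MA_entries hS i j, neg_neg]
  rw [prmS_apply, prhS_apply, iotaS_apply, hatS_apply]
  refine Matrix.ext fun i j => ?_
  fin_cases i <;> fin_cases j
  · change S 0 0 = imq (((S 0 0).imI - (S 1 1).imI) / 2) (S 0 0).imJ (S 0 0).imK +
      imq (((S 0 0).imI + (S 1 1).imI) / 2) 0 0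
    ext
    · simp [r0]
    · simp; ring
    · simp
    · simp
  · change S 0 1 = S 0 1 + 0
    rw [add_zero]
  · change S 0 2 = S 0 2 + 0
    rw [add_zero]
  · change S 1 0 = -star (S 0 1) + 0
    rw [add_zero, ← l]
  · change S 1 1 = imq (-(((S 0 0).imI - (S 1 1).imI) / 2)) (S 1 1).imJ (S 1 1).imK +
      imq (((S 0 0).imI + (S 1 1).imI) / 2) 0 0
    ext
    · simp [r1]
    · simp; ring
    · simp
    · simp
  · change S 1 2 = S 1 2 + 0
    rw [add_zero]
  · change S 2 0 = -star (S 0 2) + 0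
    rw [add_zero, ← l]
  · change S 2 1 = -star (S 1 2) + 0
    rw [add_zero, ← l]
  · change S 2 2 = 0 + imq (S 2 2).imI (S 2 2).imJ (S 2 2).imK
    rw [zero_add]
    ext
    · simp [r2]
    · simp
    · simp
    · simp

theorem prh_hat_iota (A : Hs) (x : Vs) : prhS (hatS A * iotaS x - iotaS x * hatS A) = 0 := by
  rw [prhS_apply, iotaS_apply, hatS_apply]
  have e0 : (hatF A * iotaF x - iotaF x * hatF A) 0 0 = imq A.1 0 0 * qa x - qa x * imq A.1 0 0 := by
    rw [Matrix.sub_apply, Matrix.mul_apply, Matrix.mul_apply, Fin.sum_univ_three, Fin.sum_univ_three]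
    change (imq A.1 0 0 * qa x + 0 * _ + 0 * _) - (qa x * imq A.1 0 0 + _ * 0 + _ * 0) = _
    simp only [zero_mul, mul_zero, add_zero]
  have e1 : (hatF A * iotaF x - iotaF x * hatF A) 1 1 = imq A.1 0 0 * qc x - qc x * imq A.1 0 0 := by
    rw [Matrix.sub_apply, Matrix.mul_apply, Matrix.mul_apply, Fin.sum_univ_three, Fin.sum_univ_three]
    change (0 * _ + imq A.1 0 0 * qc x + 0 * _) - (_ * 0 + qc x * imq A.1 0 0 + _ * 0) = _
    simp only [zero_mul, mul_zero, add_zero, zero_add]
  have e2 : (hatF A * iotaF x - iotaF x * hatF A) 2 2 = 0 := by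
    rw [Matrix.sub_apply, Matrix.mul_apply, Matrix.mul_apply, Fin.sum_univ_three, Fin.sum_univ_three]
    change (0 * _ + 0 * _ + _ * 0) - (_ * 0 + _ * 0 + 0 * _) = _
    simp only [zero_mul, mul_zero, add_zero, sub_self]
  unfold prhF
  rw [e0, e1, e2]
  refine Prod.ext ?_ (Prod.ext rfl (Prod.ext rfl rfl))
  change ((imq A.1 0 0 * qa x - qa x * imq A.1 0 0).imI +
    (imq A.1 0 0 * qc x - qc x * imq A.1 0 0).imI) / 2 = 0
  simp [qa, qc]

theorem prm_hat_hat (A B : Hs) : prmS (hatS A * hatS B - hatS B * hatS A) = 0 := by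
  rw [prmS_apply, hatS_apply, hatS_apply]
  have e0 : (hatF A * hatF B - hatF B * hatF A) 0 0 = 0 := by
    rw [Matrix.sub_apply, Matrix.mul_apply, Matrix.mul_apply, Fin.sum_univ_three, Fin.sum_univ_three]
    change (imq A.1 0 0 * imq B.1 0 0 + 0 * _ + 0 * _) - (imq B.1 0 0 * imq A.1 0 0 + 0 * _ + 0 * _) = _
    simp only [zero_mul, add_zero]
    ext <;> simp <;> ring
  have e1 : (hatF A * hatF B - hatF B * hatF A) 1 1 = 0 := by
    rw [Matrix.sub_apply, Matrix.mul_apply, Matrix.mul_apply, Fin.sum_univ_three, Fin.sum_univ_three]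
    change (0 * _ + imq A.1 0 0 * imq B.1 0 0 + 0 * _) - (0 * _ + imq B.1 0 0 * imq A.1 0 0 + 0 * _) = _
    simp only [zero_mul, add_zero, zero_add]
    ext <;> simp <;> ring
  have e01 : (hatF A * hatF B - hatF B * hatF A) 0 1 = 0 := by
    rw [Matrix.sub_apply, Matrix.mul_apply, Matrix.mul_apply, Fin.sum_univ_three, Fin.sum_univ_three]
    change (_ * 0 + 0 * _ + 0 * _) - (_ * 0 + 0 * _ + 0 * _) = _
    simp only [zero_mul, mul_zero, add_zero, sub_self]
  have e02 : (hatF A * hatF B - hatF B * hatF A) 0 2 = 0 := by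
    rw [Matrix.sub_apply, Matrix.mul_apply, Matrix.mul_apply, Fin.sum_univ_three, Fin.sum_univ_three]
    change (_ * 0 + 0 * _ + 0 * _) - (_ * 0 + 0 * _ + 0 * _) = _
    simp only [zero_mul, mul_zero, add_zero, sub_self]
  have e12 : (hatF A * hatF B - hatF B * hatF A) 1 2 = 0 := by
    rw [Matrix.sub_apply, Matrix.mul_apply, Matrix.mul_apply, Fin.sum_univ_three, Fin.sum_univ_three]
    change (0 * _ + _ * 0 + 0 * _) - (0 * _ + _ * 0 + 0 * _) = _
    simp only [zero_mul, mul_zero, add_zero, sub_self]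
  unfold prmF
  rw [e0, e1, e01, e02, e12]
  refine Prod.ext (Prod.ext ?_ rfl) rfl
  change ((0 : ℝ) - 0) / 2 = 0
  simp

/-- The matrix model of `𝔰𝔭(3)`. -/
noncomputable def matS : MatModel M3 Vs Hs where
  D := datS
  hh := compM brS prhS hatS hatS
  iota := iotaS
  hat := hatS
  comm_iota := fun x y => decomp_sp (comm_sp (iota_sp x) (iota_sp y))
  comm_hat := fun A x => by
    have h := decomp_sp (comm_sp (hat_sp A) (iota_sp x))
    rw [prh_hat_iota, map_zero, add_zero] at h
    exact h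
  comm_hh := fun A B => by
    have h := decomp_sp (comm_sp (hat_sp A) (hat_sp B))
    rw [prm_hat_hat, map_zero, zero_add] at h
    exact h
  inj := fun x A h =>
    ⟨(prm_inc x A).symm.trans ((congrArg prmS h).trans (map_zero prmS)),
      (prh_inc x A).symm.trans ((congrArg prhS h).trans (map_zero prhS))⟩

theorem isProjS : matS.IsProj prmS prhS := ⟨prm_inc, prh_inc⟩

end S3
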