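import Pool.Agent.S3.MA

/-! MODULE MB (diff 2): the invariant form `QS = -½ Re tr`.

* `tau_comm`: `Re tr (S T) = Re tr (T S)`: `(S T) i i = ∑ S i j T j i` (`Matrix.mul_apply`, `Fin.sum_univ_three`), and
  `(p q).re = (q p).re` for quaternions (`Quaternion.re_mul`, `ring`).
* `tau_iota_hat`: `Re tr (iota x * hat A) = 0`: `(qa x * t i).re + (qc x * t i).re = -s t + s t`.
* `QS_prm`: `decomp_sp` and `tau_iota_hat`.
* `QS_skew`: `QS (mm x y) z = -½ τ((XY - YX) Z)`, `QS y (mm x z) = -½ τ(Y (XZ - ZX))`, `tau_comm`: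
  `τ(XYZ) = τ(YZX)`, so the sum is `0`.
* `QS_pos`: `-½ Re tr X² = ½ (|qa|² + |qc|²) + |b|² + |v₁|² + |v₂|²` (explicit; or `X = -star X`).
* `QS_TS`: explicit, or `iotaS (TS x) = -g₀ (iotaS x) g₀`, `g₀ = diag(1,1,-1)`.
* `TS_mm`: `x = (0, 0, v)`, `y = (y.1, y.2.1, 0)`: the commutator `[X, Y]` has only entries `(0,2), (1,2), (2,0), (2,1)`
  (explicit), so `prmS` of it has first components `0`.
-/

namespace S3

open HFinG HG
open scoped Matrix ContDiff Matrix.Norms.Operator Quaternion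

theorem tau_comm (S T : M3) : tauS (S * T) = tauS (T * S) := by
  simp only [tauS_apply, Matrix.mul_apply, Fin.sum_univ_three, Quaternion.re_add,
    Quaternion.re_mul]
  ring

theorem tau_iota_hat (x : Vs) (A : Hs) : tauS (iotaS x * hatS A) = 0 := by
  rw [iotaS_apply, hatS_apply]
  simp [tauS_apply, iotaF, hatF, Matrix.mul_apply, Fin.sum_univ_three, qa, qc,
    Quaternion.re_mul]

theorem QS_prm (x : Vs) {S : M3} (hS : IsSp S) : QS x (prmS S) = -(1 / 2) * tauS (iotaS x * S) := by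
  have h := decomp_sp hS
  rw [QS_apply]
  have h1 : tauS (iotaS x * S) = tauS (iotaS x * iotaS (prmS S)) := by
    conv_lhs => rw [h]
    rw [mul_add, map_add, tau_iota_hat, add_zero]
  rw [h1]

theorem QS_symm (x y : Vs) : QS x y = QS y x := by
  rw [QS_apply, QS_apply, tau_comm]

theorem QS_self (x : Vs) : QS x x =
    (1 / 2) * (2 * (x.1.1 * x.1.1) + x.1.2.1.1 * x.1.2.1.1 + x.1.2.1.2 * x.1.2.1.2 +
      x.1.2.2.1 * x.1.2.2.1 + x.1.2.2.2 * x.1.2.2.2) +
    (x.2.1.re * x.2.1.re + x.2.1.imI * x.2.1.imI + x.2.1.imJ * x.2.1.imJ +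
      x.2.1.imK * x.2.1.imK) +
    (x.2.2.1.re * x.2.2.1.re + x.2.2.1.imI * x.2.2.1.imI + x.2.2.1.imJ * x.2.2.1.imJ +
      x.2.2.1.imK * x.2.2.1.imK) +
    (x.2.2.2.re * x.2.2.2.re + x.2.2.2.imI * x.2.2.2.imI + x.2.2.2.imJ * x.2.2.2.imJ +
      x.2.2.2.imK * x.2.2.2.imK) := by
  rw [QS_apply, iotaS_apply]
  simp [tauS_apply, iotaF, Matrix.mul_apply, Fin.sum_univ_three, qa, qc,
    Quaternion.re_mul]
  ring

theorem QS_pos {x : Vs} (hx : x ≠ 0) : 0 < QS x x := by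
  by_contra hneg
  rw [not_lt, QS_self] at hneg
  apply hx
  obtain ⟨⟨s, ⟨a2, a3⟩, ⟨c2, c3⟩⟩, b, v1, v2⟩ := x
  simp only at hneg
  have h1 := mul_self_nonneg s
  have h2 := mul_self_nonneg a2
  have h3 := mul_self_nonneg a3
  have h4 := mul_self_nonneg c2
  have h5 := mul_self_nonneg c3
  have h6 := mul_self_nonneg b.re
  have h7 := mul_self_nonneg b.imI
  have h8 := mul_self_nonneg b.imJ
  have h9 := mul_self_nonneg b.imK
  have h10 := mul_self_nonneg v1.re
  have h11 := mul_self_nonneg v1.imI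
  have h12 := mul_self_nonneg v1.imJ
  have h13 := mul_self_nonneg v1.imK
  have h14 := mul_self_nonneg v2.re
  have h15 := mul_self_nonneg v2.imI
  have h16 := mul_self_nonneg v2.imJ
  have h17 := mul_self_nonneg v2.imK
  have e1 : s = 0 := mul_self_eq_zero.1 (by linarith)
  have e2 : a2 = 0 := mul_self_eq_zero.1 (by linarith)
  have e3 : a3 = 0 := mul_self_eq_zero.1 (by linarith)
  have e4 : c2 = 0 := mul_self_eq_zero.1 (by linarith)
  have e5 : c3 = 0 := mul_self_eq_zero.1 (by linarith)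
  have e6 : b.re = 0 := mul_self_eq_zero.1 (by linarith)
  have e7 : b.imI = 0 := mul_self_eq_zero.1 (by linarith)
  have e8 : b.imJ = 0 := mul_self_eq_zero.1 (by linarith)
  have e9 : b.imK = 0 := mul_self_eq_zero.1 (by linarith)
  have e10 : v1.re = 0 := mul_self_eq_zero.1 (by linarith)
  have e11 : v1.imI = 0 := mul_self_eq_zero.1 (by linarith)
  have e12 : v1.imJ = 0 := mul_self_eq_zero.1 (by linarith)
  have e13 : v1.imK = 0 := mul_self_eq_zero.1 (by linarith)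
  have e14 : v2.re = 0 := mul_self_eq_zero.1 (by linarith)
  have e15 : v2.imI = 0 := mul_self_eq_zero.1 (by linarith)
  have e16 : v2.imJ = 0 := mul_self_eq_zero.1 (by linarith)
  have e17 : v2.imK = 0 := mul_self_eq_zero.1 (by linarith)
  have f1 : b = 0 := Quaternion.ext _ _ e6 e7 e8 e9
  have f2 : v1 = 0 := Quaternion.ext _ _ e10 e11 e12 e13
  have f3 : v2 = 0 := Quaternion.ext _ _ e14 e15 e16 e17
  rw [e1, e2, e3, e4, e5, f1, f2, f3]
  rfl

theorem QS_skew (x y z : Vs) : QS (datS.mm x y) z = -QS y (datS.mm x z) := by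
  rw [QS_symm, datS_mm, datS_mm, QS_prm z (comm_sp (iota_sp x) (iota_sp y)),
    QS_prm y (comm_sp (iota_sp x) (iota_sp z)), mul_sub, mul_sub, map_sub, map_sub]
  have e1 : tauS (iotaS z * (iotaS x * iotaS y)) = tauS (iotaS y * (iotaS z * iotaS x)) := by
    rw [← mul_assoc, tau_comm]
  have e2 : tauS (iotaS z * (iotaS y * iotaS x)) = tauS (iotaS y * (iotaS x * iotaS z)) := by
    rw [tau_comm, mul_assoc]
  rw [e1, e2]
  ring

theorem QS_TS (x y : Vs) : QS (TS x) (TS y) = QS x y := by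
  rw [QS_apply, QS_apply, iotaS_apply, iotaS_apply, iotaS_apply, iotaS_apply, TS_apply, TS_apply]
  simp [tauS_apply, iotaF, Matrix.mul_apply, Fin.sum_univ_three, qa, qc,
    Quaternion.re_mul]

theorem TS_TS (x : Vs) : TS (TS x) = x := by
  rw [TS_apply, TS_apply, neg_neg, neg_neg]

theorem MB_neg_real {a : ℝ} (h : -a = a) : a = 0 := by linarith

theorem MB_neg_quat {a : ℍ[ℝ]} (h : -a = a) : a = 0 := by
  refine Quaternion.ext _ _ ?_ ?_ ?_ ?_
  · exact MB_neg_real (congrArg (fun q : ℍ[ℝ] => q.re) h)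
  · exact MB_neg_real (congrArg (fun q : ℍ[ℝ] => q.imI) h)
  · exact MB_neg_real (congrArg (fun q : ℍ[ℝ] => q.imJ) h)
  · exact MB_neg_real (congrArg (fun q : ℍ[ℝ] => q.imK) h)

theorem TS_mm (x y : Vs) (hx : TS x = x) (hy : TS y = -y) : TS (datS.mm x y) = datS.mm x y := by
  obtain ⟨⟨s, ⟨a2, a3⟩, ⟨c2, c3⟩⟩, b, v1, v2⟩ := x
  obtain ⟨⟨s', ⟨a2', a3'⟩, ⟨c2', c3'⟩⟩, b', v1', v2'⟩ := y
  rw [TS_apply] at hx hy
  simp only [Prod.mk.injEq, Prod.neg_mk] at hx hy
  obtain ⟨⟨hs, ⟨ha2, ha3⟩, ⟨hc2, hc3⟩⟩, hb, -⟩ := hx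
  obtain ⟨-, -, hv⟩ := hy
  have g1 : v1' = 0 := MB_neg_quat hv.1.symm
  have g2 : v2' = 0 := MB_neg_quat hv.2.symm
  have e1 : s = 0 := MB_neg_real hs
  have e2 : a2 = 0 := MB_neg_real ha2
  have e3 : a3 = 0 := MB_neg_real ha3
  have e4 : c2 = 0 := MB_neg_real hc2
  have e5 : c3 = 0 := MB_neg_real hc3
  have e6 : b = 0 := MB_neg_quat hb
  subst g1 g2 e1 e2 e3 e4 e5 e6
  rw [datS_mm, prmS_apply, TS_apply, iotaS_apply, iotaS_apply]
  have z0 : imq 0 0 0 = 0 := rfl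
  refine Prod.ext (Prod.ext ?_ (Prod.ext ?_ ?_)) (Prod.ext ?_ rfl)
  · simp [prmF, iotaF, Matrix.mul_apply, Fin.sum_univ_three, qa, qc, z0]
  · simp [prmF, iotaF, Matrix.mul_apply, Fin.sum_univ_three, qa, qc, z0]
  · simp [prmF, iotaF, Matrix.mul_apply, Fin.sum_univ_three, qa, qc, z0]
  · simp [prmF, iotaF, Matrix.mul_apply, Fin.sum_univ_three, qa, qc, z0]

/-- `[S, X] = 0` implies the orthogonality relations used in `no_pos` -/
theorem QS_cent {x : Vs} {S : M3} (hS : IsSp S) (h0 : prhS S = 0)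
    (hc : S * iotaS x = iotaS x * S) :
    (∀ v, QS (prmS S) (datS.mm v x) = 0) ∧ ∀ A, QS (prmS S) (datS.act A x) = 0 := by
  have hd : iotaS (prmS S) = S := by
    have h := decomp_sp hS
    rw [h0, map_zero, add_zero] at h
    exact h.symm
  have key : ∀ V : M3, tauS (S * (V * iotaS x - iotaS x * V)) = 0 := by
    intro V
    rw [mul_sub, map_sub]
    have e1 : tauS (S * (V * iotaS x)) = tauS (iotaS x * S * V) := by
      rw [← mul_assoc, tau_comm, mul_assoc]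
    have e2 : tauS (S * (iotaS x * V)) = tauS (iotaS x * S * V) := by
      rw [← mul_assoc, hc]
    rw [e1, e2, sub_self]
  constructor
  · intro v
    rw [datS_mm, QS_prm _ (comm_sp (iota_sp v) (iota_sp x)), hd, key, mul_zero]
  · intro A
    rw [datS_act, QS_prm _ (comm_sp (hat_sp A) (iota_sp x)), hd, key, mul_zero]

end S3
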