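import Pool.Agent.S3.MB

/-! MODULE MC (diff 2): the centralizer.

`x = (0, 0, v)`, `v = (v₁, v₂) ≠ 0`.
* `exists_w`: there is `w = (w₁, w₂) ≠ 0` with `star w₁ * v₁ + star w₂ * v₂ = 0`: if `v₁ = 0` take `(1, 0)`; if `v₂ = 0`
  take `(0, 1)`; else `w₁ = |v₂|² v₁`, `w₂ = -|v₁|² v₂` (`star v * v = |v|²`, `Quaternion.star_mul_self`,
  `Quaternion.normSq`), i.e. `star w₁ * v₁ = |v₂|²|v₁|²`.
* `exists_q`: for a real linear functional `u` on imaginary quaternions (`u₁, u₂, u₃`) there is `q ≠ 0` imaginary with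
  `q₁u₁ + q₂u₂ + q₃u₃ = 0`: `(u₂, -u₁, 0)` or `(1, 0, 0)` (if `u₁ = u₂ = 0`).
* `S = !![w₁ q w̄₁, w₁ q w̄₂, 0; w₂ q w̄₁, w₂ q w̄₂, 0; 0, 0, 0]` (`q = imq q₁ q₂ q₃`): `star S = -S`; `S X = X S = 0` on the
  relevant blocks: `X = iotaS x` has only the entries `X 0 2 = v₁, X 1 2 = v₂, X 2 0 = -v̄₁, X 2 1 = -v̄₂`, so
  `(S X) i 2 = w_i q (w̄₁v₁ + w̄₂v₂) = 0` and `(X S) 2 j = -(v̄₁w₁ + v̄₂w₂) q w̄_j = 0`, all other entries of `S X`, `X S` are `0`.
* `prhS S = 0`: `(S 0 0).imI + (S 1 1).imI` is a real linear functional of `q`: choose `q` by `exists_q`; `S 2 2 = 0`.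
* `S ≠ 0` (if `w₁ ≠ 0` then `S 0 0 = w₁ q w̄₁ ≠ 0`), so `prmS S ≠ 0` (`decomp_sp`).
* `TS (prmS S) = -prmS S`: the last two components `S 0 2`, `S 1 2` are `0`.
-/

namespace S3

open HFinG HG
open scoped Matrix ContDiff Matrix.Norms.Operator Quaternion

theorem exists_w {v1 v2 : ℍ[ℝ]} (hv : v1 ≠ 0 ∨ v2 ≠ 0) :
    ∃ w1 w2 : ℍ[ℝ], (w1 ≠ 0 ∨ w2 ≠ 0) ∧ star w1 * v1 + star w2 * v2 = 0 := by
  have _ := hv
  by_cases h1 : v1 = 0
  · exact ⟨1, 0, Or.inl one_ne_zero, by simp [h1]⟩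
  by_cases h2 : v2 = 0
  · exact ⟨0, 1, Or.inr one_ne_zero, by simp [h2]⟩
  refine ⟨(Quaternion.normSq v2) • v1, -(Quaternion.normSq v1 • v2), Or.inl ?_, ?_⟩
  · exact smul_ne_zero (by simpa using h2) h1
  · rw [star_neg, Quaternion.star_smul, Quaternion.star_smul, neg_mul, smul_mul_assoc,
      smul_mul_assoc, Quaternion.star_mul_self, Quaternion.star_mul_self,
      ← Quaternion.coe_mul_eq_smul, ← Quaternion.coe_mul_eq_smul, ← Quaternion.coe_mul,
      ← Quaternion.coe_mul, mul_comm]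
    exact add_neg_cancel _

theorem exists_q (u1 u2 u3 : ℝ) : ∃ q1 q2 q3 : ℝ, (q1, q2, q3) ≠ 0 ∧
    q1 * u1 + q2 * u2 + q3 * u3 = 0 := by
  by_cases h : u1 = 0 ∧ u2 = 0
  · refine ⟨1, 0, 0, ?_, ?_⟩
    · intro h0
      have := congrArg Prod.fst h0
      exact one_ne_zero this
    · rw [h.1]; ring
  · refine ⟨u2, -u1, 0, ?_, by ring⟩
    intro h0
    apply h
    have h1 : u2 = 0 := congrArg Prod.fst h0
    have h2 : -u1 = 0 := congrArg (fun p => p.2.1) h0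
    exact ⟨neg_eq_zero.1 h2, h1⟩

lemma conj_imI (w : ℍ[ℝ]) (a b c : ℝ) : (w * imq a b c * star w).imI =
    a * (w.re ^ 2 + w.imI ^ 2 - w.imJ ^ 2 - w.imK ^ 2) +
      b * (2 * (w.imI * w.imJ - w.re * w.imK)) + c * (2 * (w.imI * w.imK + w.re * w.imJ)) := by
  simp
  ring

lemma conj_ne_zero {w q : ℍ[ℝ]} (hw : w ≠ 0) (hq : q ≠ 0) : w * q * star w ≠ 0 :=
  mul_ne_zero (mul_ne_zero hw hq) (star_ne_zero.2 hw)

/-- the matrix of the centralizing element -/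
noncomputable def cenS (w1 w2 q : ℍ[ℝ]) : M3 :=
  !![w1 * q * star w1, w1 * q * star w2, 0;
     w2 * q * star w1, w2 * q * star w2, 0;
     0, 0, 0]

lemma cenS_sp (w1 w2 : ℍ[ℝ]) (a b c : ℝ) : IsSp (cenS w1 w2 (imq a b c)) := by
  have key : ∀ u v : ℍ[ℝ], star (u * imq a b c * star v) = -(v * imq a b c * star u) := by
    intro u v
    rw [star_mul, star_mul, star_star, star_imq, ← mul_assoc]
    rw [mul_neg, neg_mul]
  refine Matrix.ext fun i j => ?_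
  rw [Matrix.star_eq_conjTranspose, Matrix.conjTranspose_apply]
  fin_cases i <;> fin_cases j
  · exact key _ _
  · exact key _ _
  · exact (star_zero _).trans neg_zero.symm
  · exact key _ _
  · exact key _ _
  · exact (star_zero _).trans neg_zero.symm
  · exact (star_zero _).trans neg_zero.symm
  · exact (star_zero _).trans neg_zero.symm
  · exact (star_zero _).trans neg_zero.symm

theorem exists_S (x : Vs) (hx : x ≠ 0) (hT : TS x = x) :
    ∃ S : M3, IsSp S ∧ S ≠ 0 ∧ prhS S = 0 ∧ S 0 2 = 0 ∧ S 1 2 = 0 ∧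
      S * iotaS x = iotaS x * S := by
  obtain ⟨x1, b, v1, v2⟩ := x
  rw [TS_apply] at hT
  have h1 : x1 = 0 := self_eq_neg.1 (congrArg Prod.fst hT).symm
  have hb : b = 0 := by
    have h : -b = b := congrArg (fun p => p.2.1) hT
    have h2 : (2 : ℝ) • b = 0 := by
      rw [two_smul]
      nth_rewrite 1 [← h]
      exact neg_add_cancel b
    exact (smul_eq_zero.1 h2).resolve_left two_ne_zero
  subst h1 hb
  have hv : v1 ≠ 0 ∨ v2 ≠ 0 := by
    by_contra h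
    push Not at h
    apply hx
    rw [h.1, h.2]
    rfl
  obtain ⟨w1, w2, hw, hwv⟩ := exists_w hv
  obtain ⟨q1, q2, q3, hq, hq0⟩ := exists_q
    ((w1.re ^ 2 + w1.imI ^ 2 - w1.imJ ^ 2 - w1.imK ^ 2) +
      (w2.re ^ 2 + w2.imI ^ 2 - w2.imJ ^ 2 - w2.imK ^ 2))
    ((2 * (w1.imI * w1.imJ - w1.re * w1.imK)) + (2 * (w2.imI * w2.imJ - w2.re * w2.imK)))
    ((2 * (w1.imI * w1.imK + w1.re * w1.imJ)) + (2 * (w2.imI * w2.imK + w2.re * w2.imJ)))
  have hqne : imq q1 q2 q3 ≠ 0 := by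
    intro h
    apply hq
    have e1 : q1 = 0 := congrArg (fun p => QuaternionAlgebra.imI p) h
    have e2 : q2 = 0 := congrArg (fun p => QuaternionAlgebra.imJ p) h
    have e3 : q3 = 0 := congrArg (fun p => QuaternionAlgebra.imK p) h
    rw [e1, e2, e3]
    rfl
  have hvw : star v1 * w1 + star v2 * w2 = 0 := by
    have := congrArg star hwv
    simpa using this
  refine ⟨cenS w1 w2 (imq q1 q2 q3), cenS_sp _ _ _ _ _, ?_, ?_, rfl, rfl, ?_⟩
  · intro h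
    rcases hw with hw | hw
    · exact conj_ne_zero hw hqne (congrFun (congrFun h 0) 0)
    · exact conj_ne_zero hw hqne (congrFun (congrFun h 1) 1)
  · rw [prhS_apply]
    refine Prod.ext ?_ (Prod.ext ?_ (Prod.ext ?_ ?_))
    · change ((w1 * imq q1 q2 q3 * star w1).imI + (w2 * imq q1 q2 q3 * star w2).imI) / 2 = 0
      rw [conj_imI, conj_imI]
      linarith
    · rfl
    · rfl
    · rfl
  · rw [iotaS_apply]
    have hqa : qa ((0, 0, v1, v2) : Vs) = 0 := by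
      ext <;> simp [qa]
    have hqc : qc ((0, 0, v1, v2) : Vs) = 0 := by
      ext <;> simp [qc]
    have hl : ∀ w : ℍ[ℝ], w * imq q1 q2 q3 * star w1 * v1 + w * imq q1 q2 q3 * star w2 * v2 = 0 := by
      intro w
      rw [mul_assoc _ (star w1), mul_assoc _ (star w2), ← mul_add, hwv, mul_zero]
    have hr : ∀ w : ℍ[ℝ], star v1 * (w1 * imq q1 q2 q3 * w) + star v2 * (w2 * imq q1 q2 q3 * w) = 0 := by
      intro w
      rw [mul_assoc w1, mul_assoc w2, ← mul_assoc (star v1), ← mul_assoc (star v2), ← add_mul,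
        hvw, zero_mul]
    refine Matrix.ext fun i j => ?_
    rw [Matrix.mul_apply, Matrix.mul_apply, Fin.sum_univ_three, Fin.sum_univ_three]
    fin_cases i <;> fin_cases j <;>
      simp [cenS, iotaF, hqa, hqc, hl]
    all_goals
      rw [← neg_add]
      exact (neg_eq_zero.2 (hr _)).symm

theorem hcent (x : Vs) (hx : x ≠ 0) (hT : TS x = x) :
    ∃ σ, σ ≠ 0 ∧ TS σ = -σ ∧ (∀ v, QS σ (datS.mm v x) = 0) ∧ ∀ A, QS σ (datS.act A x) = 0 := by
  obtain ⟨S, hS, hS0, hp, h02, h12, hc⟩ := exists_S x hx hT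
  obtain ⟨ha, hb⟩ := QS_cent hS hp hc
  refine ⟨prmS S, ?_, ?_, ha, hb⟩
  · intro h
    apply hS0
    rw [decomp_sp hS, h, hp, map_zero, map_zero, add_zero]
  · rw [TS_apply, prmS_apply]
    refine Prod.ext rfl (Prod.ext rfl (Prod.ext ?_ ?_))
    · change S 0 2 = -S 0 2
      rw [h02, neg_zero]
    · change S 1 2 = -S 1 2
      rw [h12, neg_zero]

end S3
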