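import Pool.Agent.S3.MC
import Pool.Agent.S3.AbsMain

/-! MODULE MD (diff 1): no reversible positively curved norm: `no_pos` with `QS`, `TS`;
`hne`: `x = (0, 0, 1, 0)`. -/

namespace S3

open HFinG HG
open scoped Matrix ContDiff Matrix.Norms.Operator Quaternion

theorem not_posFlag {F : Vs → ℝ} (hF : IsMinkowski F) (hT : ∀ x, F (TS x) = F x) :
    ¬ PosFlag datS F := by
  refine no_pos hF QS QS_symm (fun x hx => QS_pos hx) QS_skew TS TS_TS hT QS_TS ?_ TS_mm hcent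
  refine ⟨((0 : ℝ × (ℝ × ℝ) × (ℝ × ℝ)), (0 : ℍ[ℝ]), (1 : ℍ[ℝ]), (0 : ℍ[ℝ])), ?_, ?_⟩
  · intro h
    have h1 : (1 : ℍ[ℝ]) = 0 := congrArg (fun t : Vs => t.2.2.1) h
    exact one_ne_zero h1
  · rw [TS_apply]
    simp

end S3
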