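import Pool.Agent.S3.MA
import Pool.Agent.S3.Space

/-! MODULE RA (diff 2): the representation `ρ(g) T = g T g*` on `W3`.

* `actS_one`, `actS_mul`: `star (g h) = star h * star g`, associativity (`ext T i j`, `conj3`).
* `actS_smooth`: `contDiff_clm_apply_iff` (finite-dimensional source), `contDiff_pi`; the entry
  `(g T g*) i j = ∑ k l, g i k * T k l * star (g j l)` is a sum of products of entries, each entry is a real-linear
  function of `g` (and `star` is real-linear on `ℍ`).
* `actS_fderiv`: derivative of `g ↦ g T g*` at `1` in the direction `X`: `X T + T X*` (entrywise; or as the derivative at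
  `t = 0` of `t ↦ (1 + t X) T (1 + t X)* = T + t (X T + T X*) + t² X T X*`, using the smoothness).
-/

namespace S3

open HFinG HG
open scoped Matrix ContDiff Matrix.Norms.Operator Quaternion

/-- `T ↦ g T g*` as a continuous linear map -/
noncomputable def actS (g : M3) : W3 →L[ℝ] W3 :=
  LinearMap.toContinuousLinearMap
    { toFun := conj3 g
      map_add' := by
        intro S T
        funext i j
        have h : Matrix.of (S + T) = (Matrix.of S + Matrix.of T : M3) := rfl
        change (g * Matrix.of (S + T) * star g) i j =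
          (g * Matrix.of S * star g) i j + (g * Matrix.of T * star g) i j
        rw [h, mul_add, add_mul]
        rfl
      map_smul' := by
        intro c T
        funext i j
        have h : Matrix.of (c • T) = (c • Matrix.of T : M3) := rfl
        change (g * Matrix.of (c • T) * star g) i j = c • (g * Matrix.of T * star g) i j
        rw [h, mul_smul_comm, smul_mul_assoc]
        rfl }

lemma actS_apply (g : M3) (T : W3) : actS g T = conj3 g T := rfl

theorem RA_conj3 (g : M3) (T : W3) (i j : Fin 3) :
    conj3 g T i j = ∑ k, (∑ l, g i l * T l k) * star (g j k) := by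
  change (g * Matrix.of T * star g) i j = _
  rw [Matrix.mul_apply]
  refine Finset.sum_congr rfl fun k _ => ?_
  rw [Matrix.mul_apply, Matrix.star_eq_conjTranspose, Matrix.conjTranspose_apply]
  rfl

theorem actS_one : actS 1 = 1 := by
  ext1 T
  rw [actS_apply]
  funext i j
  change ((1 : M3) * Matrix.of T * star (1 : M3)) i j = T i j
  rw [star_one, one_mul, mul_one]
  rfl

theorem actS_mul (g h : M3) : actS (g * h) = actS g * actS h := by
  ext1 T
  change conj3 (g * h) T = conj3 g (conj3 h T)
  funext i j
  change (g * h * Matrix.of T * star (g * h)) i j = (g * (h * Matrix.of T * star h) * star g) i j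
  rw [star_mul]
  simp only [mul_assoc]

theorem RA_entry (i a : Fin 3) : ContDiff ℝ ∞ (fun g : M3 => g i a) :=
  (LinearMap.toContinuousLinearMap
    ({ toFun := fun g : M3 => g i a
       map_add' := fun _ _ => rfl
       map_smul' := fun _ _ => rfl } : M3 →ₗ[ℝ] ℍ[ℝ])).contDiff

theorem RA_entry_star (i a : Fin 3) : ContDiff ℝ ∞ (fun g : M3 => star (g i a)) :=
  (LinearMap.toContinuousLinearMap
    ({ toFun := fun g : M3 => star (g i a)
       map_add' := fun g h => by
         change star (g i a + h i a) = _
         rw [star_add]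
       map_smul' := fun c g => by
         change star (c • g i a) = c • star (g i a)
         rw [Quaternion.star_smul] } : M3 →ₗ[ℝ] ℍ[ℝ])).contDiff

theorem actS_smooth : ContDiff ℝ ∞ (actS : M3 → W3 →L[ℝ] W3) := by
  rw [contDiff_clm_apply_iff]
  intro T
  refine contDiff_pi.2 fun i => contDiff_pi.2 fun j => ?_
  simp only [actS_apply, RA_conj3]
  refine ContDiff.sum fun k _ => ?_
  refine ContDiff.mul ?_ (RA_entry_star j k)
  refine ContDiff.sum fun l _ => ?_
  exact (RA_entry i l).mul contDiff_const

theorem actS_fderiv (X : M3) (T : W3) (i j : Fin 3) :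
    fderiv ℝ (actS : M3 → W3 →L[ℝ] W3) 1 X T i j = (X * Matrix.of T + Matrix.of T * star X) i j := by
  have h1 : HasFDerivAt (actS : M3 → W3 →L[ℝ] W3) (fderiv ℝ (actS : M3 → W3 →L[ℝ] W3) 1) 1 :=
    (actS_smooth.differentiable (by simp) 1).hasFDerivAt
  have h2 : HasFDerivAt (fun g : M3 => actS g T)
      ((ContinuousLinearMap.apply ℝ W3 T).comp
        (fderiv ℝ (actS : M3 → W3 →L[ℝ] W3) 1)) 1 :=
    (ContinuousLinearMap.apply ℝ W3 T).hasFDerivAt.comp 1 h1
  have h3 : HasDerivAt (fun s : ℝ => (1 : M3) + s • X) X 0 := by
    have h := ((hasDerivAt_id (0:ℝ)).smul_const X).const_add (1 : M3)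
    rw [one_smul] at h
    exact h
  have h2' : HasFDerivAt (fun g : M3 => actS g T)
      ((ContinuousLinearMap.apply ℝ W3 T).comp
        (fderiv ℝ (actS : M3 → W3 →L[ℝ] W3) 1)) ((fun s : ℝ => (1 : M3) + s • X) 0) := by
    have e : (fun s : ℝ => (1 : M3) + s • X) 0 = 1 := by simp
    rw [e]
    exact h2
  have h4 := h2'.comp_hasDerivAt (0:ℝ) h3
  have h6 : HasDerivAt (fun s : ℝ => (Matrix.of T : M3) i j
      + s • (X * Matrix.of T + Matrix.of T * star X : M3) i j
      + (s * s) • (X * Matrix.of T * star X : M3) i j)
      ((X * Matrix.of T + Matrix.of T * star X : M3) i j) 0 := by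
    have a1 := ((hasDerivAt_id (0:ℝ)).smul_const
      ((X * Matrix.of T + Matrix.of T * star X : M3) i j)).const_add ((Matrix.of T : M3) i j)
    have a2 := ((hasDerivAt_id (0:ℝ)).mul (hasDerivAt_id (0:ℝ))).smul_const
      ((X * Matrix.of T * star X : M3) i j)
    refine (a1.add a2).congr_deriv ?_
    simp
  have h5 := (hasDerivAt_pi.1 ((hasDerivAt_pi.1 h4) i)) j
  have e : (fun s : ℝ => (((fun g : M3 => actS g T) ∘ fun s : ℝ => (1 : M3) + s • X) s) i j)
      = fun s : ℝ => (Matrix.of T : M3) i j
      + s • (X * Matrix.of T + Matrix.of T * star X : M3) i j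
      + (s * s) • (X * Matrix.of T * star X : M3) i j := by
    funext s
    change (((1 : M3) + s • X) * Matrix.of T * star ((1 : M3) + s • X)) i j = _
    have e1 : ((1 : M3) + s • X) * Matrix.of T * star ((1 : M3) + s • X) =
        Matrix.of T + s • (X * Matrix.of T + Matrix.of T * star X)
          + (s * s) • (X * Matrix.of T * star X) := by
      have e2 : star (s • X : M3) = s • star X := by
        refine Matrix.ext fun a b => ?_
        rw [Matrix.star_eq_conjTranspose, Matrix.conjTranspose_apply, Matrix.smul_apply,
          Matrix.smul_apply, Matrix.star_eq_conjTranspose, Matrix.conjTranspose_apply,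
          Quaternion.star_smul]
      rw [star_add, star_one, e2, add_mul, one_mul, mul_add, mul_one, add_mul, smul_mul_assoc,
        mul_smul_comm, mul_smul_comm, smul_mul_assoc, smul_smul, smul_add]
      abel
    rw [e1]
    rfl
  rw [e] at h5
  exact h5.unique h6

end S3
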